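import Mathlib.Topology.Sheaves.Presheaf
import Mathlib.LinearAlgebra.Charpoly.ToMatrix
import Mathlib.Algebra.Order.Star.Real
import Mathlib.RingTheory.Polynomial.Resultant.Basic
import Mathlib.LinearAlgebra.Matrix.FiniteDimensional
import Mathlib.Combinatorics.SimpleGraph.Basic
import Mathlib.Data.Int.Log
import Mathlib.RingTheory.PiTensorProduct
import Mathlib.NumberTheory.Padics.RingHoms
import Mathlib.RingTheory.TotallySplit
import Mathlib.Tactic.Polynomial.Basic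
import Pool.Agent.MP_a43263_nt.JC.JSpec
import Pool.Agent.MP_a43263_nt.UC.Spec

-- ======== part 0: formerly Pool.Agent.MP_a43263_nt.UV.Spec
section MrgPart0

/-! THEOREM U: trivial 2-Selmer group for a positive proportion of all odd hyperelliptic
Jacobians. Blueprint: `/team-store/UNIV_BLUEPRINT.md`. -/

set_option autoImplicit false

noncomputable section

namespace Pool.Agent.MP_a43263_nt.UV

open Polynomial Finset Filter Matrix JC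

/-! ### definitions -/

abbrev Qb : Type := AlgebraicClosure ℚ

abbrev Mat (g : ℕ) (R : Type) : Type := Matrix (Fin (2 * g + 1)) (Fin (2 * g + 1)) R

/-- an integral polynomial over the ring `R` -/
abbrev zK (f : ℤ[X]) (R : Type) [CommRing R] : R[X] := f.map (Int.castRingHom R)

/-- an integral matrix over the ring `R` -/
abbrev mK {g : ℕ} (A : Mat g ℤ) (R : Type) [CommRing R] : Mat g R := A.map (Int.castRingHom R)

section
variable {R : Type} [CommRing R]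

/-- the top coefficient of the remainder -/
def ta (g : ℕ) (f P : R[X]) : R := (P %ₘ f).coeff (2 * g)

/-- the Gram matrix of the form `ta (δ x y)` -/
def Gm (g : ℕ) (f δ : R[X]) : Mat g R := Matrix.of fun i j => ta g f (δ * X ^ (i.1 + j.1))

/-- the norm -/
def Nm (f δ : R[X]) : R := resultant f δ

/-- a square modulo `f` -/
def Sqm (f δ : R[X]) : Prop := ∃ z, f ∣ δ - z ^ 2

/-- a diagonalisation -/
def Dg {m : ℕ} (G : Matrix (Fin m) (Fin m) R) (e : Fin m → R) : Prop :=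
  ∃ P : Matrix (Fin m) (Fin m) R, IsUnit P.det ∧ Pᵀ * G * P = diagonal e

/-- the monic polynomial with the coefficients `c` -/
def pc {n : ℕ} (c : Fin n → R) : R[X] := X ^ n + ∑ i, C (c i) * X ^ (n - 1 - i.1)

/-- the condition modulo a prime of `Q` -/
def St {g : ℕ} (f : R[X]) (A B : Mat g R) : Prop := ∃ T : Mat g R, A * T = B ∧ T.charpoly = f ∧
  ∃ (x : Fin (2 * g + 1) → R) (s : R), s ≠ 0 ∧ T *ᵥ x = 0 ∧ x ⬝ᵥ A *ᵥ x = s ^ 2

end

section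
variable {K : Type} [Field K]

structure Sq (g : ℕ) (f : K[X]) : Prop where
  pos : 1 ≤ g
  monic : f.Monic
  deg : f.natDegree = 2 * g + 1
  sep : f.Separable

/-- the image of the descent map of `y ^ 2 = c f(x)` -/
def Wc (c : K) (f δ : K[X]) : Prop := IsCoprime δ f ∧ ∃ U V s : K[X], U.Monic ∧
  U ∣ C c * f - V ^ 2 ∧ IsCoprime U f ∧ f ∣ δ * (C ((-c) ^ U.natDegree) * U) - s ^ 2

/-- split forms -/
def IsoM (g : ℕ) (G : Mat g K) : Prop := ∃ S : Submodule K (Fin (2 * g + 1) → K),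
  g ≤ Module.finrank K S ∧ ∀ z ∈ S, z ⬝ᵥ G *ᵥ z = 0

/-- the relation `JC.Z` with functions on the roots -/
def ZV (f : K[X]) (R : CommRing.Pic (Rg f)) (D : Ideal (Rg f)) (ρ : K → K) : Prop :=
  ∃ (E : Ideal (Rg f)) (u : K[X]) (h₁ h₂ : Rg f), Nu E u ∧ cl E = R ∧ lc h₁ = 1 ∧ lc h₂ = 1 ∧
    Ideal.span {h₁} * D = Ideal.span {h₂} * E ^ 2 ∧
    ∀ θ, f.eval θ = 0 → u.eval θ ≠ 0 ∧ h₁.re.eval θ ≠ 0 ∧ h₂.re.eval θ ≠ 0 ∧
      ρ θ * h₁.re.eval θ = nb u θ * h₂.re.eval θ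

end

structure Zq (g : ℕ) (f : ℤ[X]) : Prop where
  pos : 1 ≤ g
  monic : f.Monic
  deg : f.natDegree = 2 * g + 1
  irr : Irreducible (zK f ℚ)

/-- the 2-Selmer group of `y ^ 2 = c f(x)` is trivial -/
def SelT (c : ℚ) (f : ℚ[X]) : Prop := ∀ δ : ℚ[X], Wc (c : ℝ) (fK f ℝ) (fK δ ℝ) →
  (∀ (p : ℕ) [Fact p.Prime], Wc (c : ℚ_[p]) (fK f ℚ_[p]) (fK δ ℚ_[p])) → Sqm f δ

/-- not maximal at `p` -/
def Nx (p : ℕ) (f : ℤ[X]) : Prop := ∃ φ a b c : ℤ[X], φ.Monic ∧ 0 < φ.natDegree ∧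
  f = φ ^ 2 * a + C (p : ℤ) * φ * b + C (p : ℤ) ^ 2 * c

/-- the type at a prime of `Q` -/
def Ty (q : ℕ) (f : ℤ[X]) : Prop := ∃ h : (ZMod q)[X], zK f (ZMod q) = X * h ∧ Irreducible h ∧
  IsSquare (h.eval 0)

/-- a uniformiser at the prime of large degree -/
def pv (q : ℕ) (f : ℤ[X]) : ℤ[X] := f.divX ^ 2 + C (q : ℤ) * X

section
variable (p : ℕ) [Fact p.Prime]

/-- inclusion of polynomials -/
abbrev iq (r : ℤ_[p][X]) : ℚ_[p][X] := r.map PadicInt.Coe.ringHom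

/-- reduction of polynomials -/
abbrev rq (r : ℤ_[p][X]) : (ZMod p)[X] := r.map PadicInt.toZMod

/-- a unit times a square -/
def Ev (f : ℤ[X]) (δ : ℚ_[p][X]) : Prop := ∃ (x : ℚ_[p][X]) (r : ℤ_[p][X]),
  zK f ℚ_[p] ∣ δ * x ^ 2 - iq p r ∧ IsCoprime (rq p r) (zK f (ZMod p))

/-- the local invariants -/
def NF (f : ℤ[X]) (δ : ℚ_[p][X]) (u y : ZMod 2) : Prop := ∃ (x : ℚ_[p][X]) (r : ℤ_[p][X]),
  zK f ℚ_[p] ∣ δ * x ^ 2 - iq p r * zK (pv p f) ℚ_[p] ^ y.val ∧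
    IsCoprime (rq p r) (zK f (ZMod p)) ∧ (IsSquare ((rq p r).eval 0) ↔ u = 0)

/-- the factorisation at a prime of `Q` -/
structure Hd (f : ℤ[X]) (a : ℤ_[p]) (h : ℤ_[p][X]) : Prop where
  eq : zK f ℤ_[p] = (X - C a) * h
  monic : h.Monic
  zero : PadicInt.toZMod a = 0
  irr : Irreducible (rq p h)
  ne : (rq p h).eval 0 ≠ 0
  sq : IsSquare ((rq p h).eval 0)

/-- the Hilbert symbol -/
def Sp (s : ℚ_[p] → ℚ_[p] → ℤ) : Prop := Sy s ∧ ∀ x y : ℤ, x ≠ 0 → y ≠ 0 → s x y = RH.hs p x y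

end

/-- the strict Selmer group is trivial -/
def Str (Q : Finset ℕ) (f : ℤ[X]) : Prop := ∀ δ : ℚ[X], IsCoprime δ (zK f ℚ) →
  IsSquare (Nm (zK f ℚ) δ) → (∀ (p : ℕ) [Fact p.Prime], Ev p f (fK δ ℚ_[p])) →
  (∀ (q : ℕ) [Fact q.Prime], q ∈ Q → NF q f (fK δ ℚ_[q]) 0 0) → Sqm (zK f ℚ) δ

/-- integral modulo `f` -/
def In (f : ℤ[X]) (z : ℚ[X]) : Prop := ∃ r : ℤ[X], zK f ℚ ∣ z - zK r ℚ

/-- self-dual lattices -/
def SD (f : ℤ[X]) (δ : ℚ[X]) (Λ : Set ℚ[X]) : Prop :=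
  (∀ x, x ∈ Λ ↔ ∀ y ∈ Λ, In f (δ * x * y)) ∧ ∃ N : ℤ, N ≠ 0 ∧ C (N : ℚ) ∈ Λ

/-- a vector whose value at the prime of degree one is a nonzero square -/
def Loc (q : ℕ) (f : ℤ[X]) (δ : ℚ[X]) (Λ : Set ℚ[X]) : Prop := ∃ x ∈ Λ, ∃ (r : ℤ[X]) (s : ZMod q),
  zK f ℚ ∣ δ * x ^ 2 - zK r ℚ ∧ s ≠ 0 ∧ ((r.eval 0 : ℤ) : ZMod q) = s ^ 2

/-- the vectors of small degree lie in a proper ideal above `p` -/
def Low (g p : ℕ) (Λ : Set ℚ[X]) : Prop := ∃ φ : (ZMod p)[X], φ.Monic ∧ 0 < φ.natDegree ∧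
  ∀ x ∈ Λ, x.degree < g → ∃ r : ℤ[X], x = zK r ℚ ∧ φ ∣ zK r (ZMod p)

/-- a basis modulo `f` -/
structure Bs (g : ℕ) (f : ℤ[X]) (Λ : Set ℚ[X]) (b : Fin (2 * g + 1) → ℚ[X]) : Prop where
  mem : ∀ i, b i ∈ Λ
  span : ∀ x ∈ Λ, ∃ z : Fin (2 * g + 1) → ℤ, zK f ℚ ∣ x - ∑ i, C (z i : ℚ) * b i
  ind : ∀ z : Fin (2 * g + 1) → ℚ, zK f ℚ ∣ ∑ i, C (z i) * b i → z = 0

/-- the matrices of the form and of the multiplication by `x` -/
structure Mt (g : ℕ) (f : ℤ[X]) (δ : ℚ[X]) (b : Fin (2 * g + 1) → ℚ[X]) (A T : Mat g ℤ) : Prop where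
  gram : ∀ i j, (A i j : ℚ) = ta g (zK f ℚ) (δ * b i * b j)
  mul : ∀ j, zK f ℚ ∣ X * b j - ∑ i, C (T i j : ℚ) * b i

structure Rep (g : ℕ) (f : ℤ[X]) (A T : Mat g ℤ) : Prop where
  sa : A.IsSymm
  sb : (A * T).IsSymm
  det : IsUnit A.det
  ch : T.charpoly = f

/-- majorants -/
structure Maj {g : ℕ} (ρ : ℝ) (A T H : Mat g ℝ) : Prop where
  pos : H.PosDef
  det : H.det ≤ 1
  cs : ∀ x y, (x ⬝ᵥ A *ᵥ y) ^ 2 ≤ (x ⬝ᵥ H *ᵥ x) * (y ⬝ᵥ H *ᵥ y)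
  bd : ∀ x, (T *ᵥ x) ⬝ᵥ H *ᵥ (T *ᵥ x) ≤ ρ ^ 2 * (x ⬝ᵥ H *ᵥ x)

/-- common isotropic vectors are not too short -/
def Dst {g : ℕ} (M ρ : ℝ) (A T : Mat g ℤ) (H : Mat g ℝ) : Prop :=
  ∀ e : Fin g → Fin (2 * g + 1) → ℤ, LinearIndependent ℤ e →
    (∀ i j, e i ⬝ᵥ A *ᵥ e j = 0 ∧ e i ⬝ᵥ (A * T) *ᵥ e j = 0) →
    M ^ 2 ≤ ρ ^ (g * (g + 1)) * ∏ i, (fun k => (e i k : ℝ)) ⬝ᵥ H *ᵥ fun k => (e i k : ℝ)

/-- the polynomials that are counted -/
def Cl (g : ℕ) (Q : Finset ℕ) (f₀ : ℤ[X]) (M ρ : ℝ) (f : ℤ[X]) : Prop :=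
  ∃ (A T : Mat g ℤ) (H : Mat g ℝ), Rep g f A T ∧
    (∀ q ∈ Q, St (zK f₀ (ZMod q)) (mK A (ZMod q)) (mK (A * T) (ZMod q))) ∧
    Maj ρ (mK A ℝ) (mK T ℝ) H ∧ Dst M ρ A T H

section
variable {g : ℕ}

/-- boxes of symmetric matrices -/
def Bx (c : ℤ) (e : Fin (2 * g + 1) → ℤ) (A : Mat g ℤ) : Prop :=
  A.IsSymm ∧ ∀ i j, |(A i j : ℝ)| ≤ 2 ^ (c + e i + e j)

/-- admissible exponents -/
def Adm (m : ℕ) (e : Fin (2 * g + 1) → ℤ) : Prop := Monotone e ∧ (∀ i, e (Fin.rev i) = -e i) ∧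
  ∀ i j, i.1 + 1 = j.1 → e j - e i ≤ m

/-- the deep cusp -/
def Cu (m : ℕ) (e : Fin (2 * g + 1) → ℤ) : Prop := ∀ i, i.1 < g → m + 2 * e i < 0

def sg (e : Fin (2 * g + 1) → ℤ) : ℤ := ∑ i ∈ univ.filter fun i => i.1 < g, -e i

def mn (m : ℕ) (e : Fin (2 * g + 1) → ℤ) : ℤ := ∑ i ∈ univ.filter fun i => i.1 < g, min (-e i) m

def un (e : Fin (2 * g + 1) → ℤ) : ℤ := ∑ j, ∑ i ∈ Iio j, (e j - e i)

def ex (c : ℤ) (e : Fin (2 * g + 1) → ℤ) : ℤ := ∑ j, ∑ i ∈ Iic j, max 0 (c + e i + e j)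

end

/-- the dimension -/
def dm (g : ℕ) : ℕ := (g + 1) * (2 * g + 1)

def tr (g : ℕ) : ℕ := g * (g + 1) / 2

/-- the box of coefficients -/
def Box {n : ℕ} (H : ℕ) (c : Fin n → ℤ) : Prop := ∀ i, |c i| ≤ (H : ℤ) ^ (i.1 + 1)

/-- the model without the second coefficient -/
def bg (g : ℕ) (c : Fin (2 * g) → ℤ) : ℚ[X] :=
  X ^ (2 * g + 1) + ∑ i, C (c i : ℚ) * X ^ (2 * g - 1 - i.1)

def Good (f : ℚ[X]) : Prop := Irreducible f ∧ Finite (JQ f) ∧ (∀ P : JQ f, 2 • P = 0 → P = 0) ∧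
  ∀ k : ℕ, ∀ x ∈ JSha f, 2 ^ k • x = 0 → x = 0

/-! ### A. local theory -/

/-- norms and Gram matrices -/
def GRAMStmt : Prop := (∀ (R : Type) [CommRing R] (f : R[X]), f.Monic →
    (∀ δ δ', Nm f (δ * δ') = Nm f δ * Nm f δ') ∧ (∀ δ δ', f ∣ δ - δ' → Nm f δ = Nm f δ') ∧
    (∀ c, Nm f (C c) = c ^ f.natDegree) ∧ (∀ δ, IsUnit (Nm f δ) ↔ IsCoprime δ f) ∧
    (∀ f', f'.Monic → ∀ δ, Nm (f * f') δ = Nm f δ * Nm f' δ) ∧
    ∀ (S : Type) [CommRing S] (φ : R →+* S) (δ : R[X]),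
      Nm (f.map φ) (δ.map φ) = φ (Nm f δ)) ∧
  ∀ (K : Type) [Field K] (g : ℕ) (f : K[X]), Sq g f →
    (∀ δ, (Gm g f δ).det = (-1) ^ g * Nm f δ) ∧
    ∀ δ δ' x, IsCoprime x f → f ∣ δ * x ^ 2 - δ' →
      ∃ P : Mat g K, IsUnit P.det ∧ Pᵀ * Gm g f δ * P = Gm g f δ'

/-- the image of the descent map -/
def WGStmt : Prop := ∀ (K : Type) [Field K] [CharZero K] (g : ℕ) (c : K) (f : K[X]), Sq g f →
  c ≠ 0 → Wc c f 1 ∧ (∀ δ δ', Wc c f δ → Wc c f δ' → Wc c f (δ * δ')) ∧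
  (∀ δ, Wc c f δ → IsSquare (Nm f δ)) ∧ (∀ δ r, r ≠ 0 → (Wc (c * r ^ 2) f δ ↔ Wc c f δ)) ∧
  (∀ a h, f = (X - C a) * h → Wc c f (C (c ^ (2 * g)) * h + C c * (C a - X))) ∧
  ∀ (L : Type) [Field L] (φ : K →+* L) (δ : K[X]), Wc c f δ → Wc (φ c) (f.map φ) (δ.map φ)

def QSStmt : Prop := ∀ (K : Type) [Field K] [CharZero K] (g : ℕ) (c : K) (f δ : K[X]), Sq g f →
  c ≠ 0 → Wc c f δ → IsoM g (Gm g f δ)

def DIAGStmt : Prop := ∀ (R : Type) [CommRing R] [IsLocalRing R], IsUnit (2 : R) →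
  ∀ (m : ℕ) (G : Matrix (Fin m) (Fin m) R), G.IsSymm → IsUnit G.det →
    ∃ e, Dg G e ∧ ∀ i, IsUnit (e i)

/-- the Hasse symbol is an invariant -/
def HINVStmt : Prop := ∀ (K : Type) [Field K] [CharZero K] (s : K → K → ℤ), Sy s →
  (∀ (m : ℕ) (G : Matrix (Fin m) (Fin m) K) (e e' : Fin m → K), Dg G e → Dg G e' →
    (∀ i, e i ≠ 0) → Hs s e = Hs s e') ∧
  ∀ (g : ℕ) (G : Mat g K) (e : Fin (2 * g + 1) → K), Dg G e → (∀ i, e i ≠ 0) → IsoM g G →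
    IsSquare ((-1) ^ g * G.det) → Hs s e = Hs s fun i : Fin (2 * g + 1) => (-1 : K) ^ i.1

/-- squares and symbols -/
def PADStmt : Prop := (∀ (p : ℕ) [Fact p.Prime], p ≠ 2 →
    (∀ u : ℤ_[p], IsUnit u → (IsSquare (u : ℚ_[p]) ↔ IsSquare (PadicInt.toZMod u))) ∧
    ∀ s, Sp p s → (∀ u v : ℤ_[p], IsUnit u → IsUnit v → s u v = 1) ∧
      ∀ u : ℤ_[p], IsUnit u → (s p u = 1 ↔ IsSquare (PadicInt.toZMod u))) ∧
  (∀ d : ℤ, d % 8 = 1 → IsSquare (d : ℚ_[2])) ∧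
  ∀ r : ℚ, IsSquare (r : ℝ) → (∀ (p : ℕ) [Fact p.Prime], IsSquare (r : ℚ_[p])) → IsSquare r

/-- the Hasse symbol of a unimodular form -/
def LOCUStmt : Prop := ∀ (p : ℕ) [Fact p.Prime] (g : ℕ) (f : ℤ[X]) (δ : ℚ_[p][X])
  (s : ℚ_[p] → ℚ_[p] → ℤ) (e : Fin (2 * g + 1) → ℚ_[p]), p ≠ 2 → Zq g f → Sp p s →
  Dg (Gm g (zK f ℚ_[p]) δ) e → Ev p f δ → Hs s e = 1

/-- the Hasse symbol at a prime of `Q` -/
def LOCQStmt : Prop := ∀ (p : ℕ) [Fact p.Prime] (g : ℕ) (f : ℤ[X]) (δ : ℚ_[p][X])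
  (s : ℚ_[p] → ℚ_[p] → ℤ) (e : Fin (2 * g + 1) → ℚ_[p]) (u : ZMod 2), p % 4 = 1 → Zq g f → Ty p f →
  Sp p s → Dg (Gm g (zK f ℚ_[p]) δ) e → IsSquare (Nm (zK f ℚ_[p]) δ) → NF p f δ u 1 →
  (Hs s e = 1 ↔ u = 0)

def HENSStmt : Prop := ∀ (p : ℕ) [Fact p.Prime] (g : ℕ) (f : ℤ[X]), Zq g f → Ty p f →
  ∃ a h, Hd p f a h

/-- the invariants from the components -/
def CMPStmt : Prop := ∀ (p : ℕ) [Fact p.Prime] (g : ℕ) (f : ℤ[X]) (a : ℤ_[p]) (h : ℤ_[p][X])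
  (δ : ℚ_[p][X]) (w : ℤ_[p]) (c : ℚ_[p]) (k : ℤ) (r : ℤ_[p][X]) (u : ZMod 2), Zq g f → Hd p f a h →
  IsUnit w → c ≠ 0 → δ.eval (a : ℚ_[p]) = w * c ^ 2 → (IsSquare (PadicInt.toZMod w) ↔ u = 0) →
  iq p h ∣ δ - C ((p : ℚ_[p]) ^ k) * iq p r → ¬rq p h ∣ rq p r → NF p f δ u k

/-- the invariants are additive -/
def NFMStmt : Prop := ∀ (p : ℕ) [Fact p.Prime] (g : ℕ) (f : ℤ[X]), Zq g f →
  Ev p f 1 ∧ (∀ δ δ', Ev p f δ → Ev p f δ' → Ev p f (δ * δ')) ∧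
  (∀ δ, Ev p f δ ↔ ∃ u, NF p f δ u 0) ∧
  (p ≠ 2 → Ty p f → ∀ δ δ' u y u' y', NF p f δ u y → NF p f δ' u' y' →
    NF p f (δ * δ') (u + u') (y + y'))

/-- the invariants exist -/
def NFEStmt : Prop := ∀ (p : ℕ) [Fact p.Prime] (g : ℕ) (f : ℤ[X]) (δ : ℚ_[p][X]), Zq g f → Ty p f →
  IsCoprime δ (zK f ℚ_[p]) → IsSquare (Nm (zK f ℚ_[p]) δ) → ∃ u y, NF p f δ u y

/-- the local condition of a ramified twist -/
def RAMStmt : Prop := ∀ (p : ℕ) [Fact p.Prime] (g : ℕ) (f : ℤ[X]) (δ : ℚ_[p][X]) (d : ℤ)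
  (u y : ZMod 2), p % 4 = 1 → Zq g f → Ty p f → (p : ℤ) ∣ d → ¬(p : ℤ) ^ 2 ∣ d →
  Wc (d : ℚ_[p]) (zK f ℚ_[p]) δ → NF p f δ u y → u = 0

/-- integral models of binary forms -/
def INTStmt : Prop := ∀ (p : ℕ) [Fact p.Prime] (F : ℤ_[p][X]) (U V U' : ℚ_[p][X]),
  iq p F = V ^ 2 + U * U' → ∃ (u v w : ℤ_[p][X]) (j : ℤ), F = v ^ 2 - u * w ∧
    ∀ a b : ℤ_[p][X], ∃ z z' : ℚ_[p][X], iq p (u * a ^ 2 + 2 * v * a * b + w * b ^ 2) =
      C ((p : ℚ_[p]) ^ j) * (U * z ^ 2 + 2 * V * z * z' - U' * z' ^ 2)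

/-- maximality -/
def NXPStmt : Prop := (∀ (p : ℕ) [Fact p.Prime] (f φ : ℤ[X]) (a b c : ℤ_[p][X]), φ.Monic →
    0 < φ.natDegree → zK f ℤ_[p] = zK φ ℤ_[p] ^ 2 * a + C (p : ℤ_[p]) * zK φ ℤ_[p] * b +
      C (p : ℤ_[p]) ^ 2 * c → Nx p f) ∧
  (∀ (p g : ℕ) (f : ℤ[X]), p.Prime → Zq g f → Ty p f → ¬Nx p f) ∧
  ∀ (g : ℕ) (c : Fin (2 * g + 1) → ℤ), 1 ≤ g → Irreducible (zK (pc c) (ZMod 2)) →
    Zq g (pc c) ∧ ¬Nx 2 (pc c)

/-- the local condition of an unramified twist -/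
def EVStmt : Prop := ∀ (p : ℕ) [Fact p.Prime] (g : ℕ) (f : ℤ[X]) (δ : ℚ_[p][X]) (d : ℤ), Zq g f →
  ¬Nx p f → ¬(p : ℤ) ∣ d → Wc (d : ℚ_[p]) (zK f ℚ_[p]) δ → Ev p f δ

/-- the product formula for diagonal forms -/
def PFStmt : Prop := ∀ (m : ℕ) (e : Fin m → ℤ) (P : Finset ℕ), (∀ i, e i ≠ 0) → 2 ∈ P →
  (∀ p ∈ P, p.Prime) → (∀ (p : ℕ) i, p.Prime → (p : ℤ) ∣ e i → p ∈ P) →
  Hs (fun x y : ℤ => if x < 0 ∧ y < 0 then -1 else 1) e * ∏ p ∈ P, Hs (RH.hs p) e = 1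

/-- reciprocity -/
def RECStmt : Prop := ∀ (g : ℕ) (f : ℤ[X]) (Q : Finset ℕ) (δ : ℚ[X]) (u y : ℕ → ZMod 2), Zq g f →
  (∀ q ∈ Q, q.Prime ∧ q % 4 = 1 ∧ Ty q f) → IsSquare (Nm (zK f ℚ) δ) →
  Wc 1 (zK f ℝ) (fK δ ℝ) → Wc 1 (zK f ℚ_[2]) (fK δ ℚ_[2]) →
  (∀ (p : ℕ) [Fact p.Prime], p ∉ Q → Ev p f (fK δ ℚ_[p])) →
  (∀ (q : ℕ) [Fact q.Prime], q ∈ Q → NF q f (fK δ ℚ_[q]) (u q) (y q)) → ∑ q ∈ Q, u q * y q = 0

/-- a singular subspace misses a coordinate Lagrangian -/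
def LAGStmt : Prop := ∀ (Q : Finset ℕ) (I : Set ((ℕ → ZMod 2) × (ℕ → ZMod 2))),
  (∀ x ∈ I, ∀ x' ∈ I, x + x' ∈ I) → (∀ x ∈ I, ∑ q ∈ Q, x.1 q * x.2 q = 0) →
  ∃ S ⊆ Q, ∀ x ∈ I, (∀ q ∈ S, x.1 q = 0) → (∀ q ∈ Q, q ∉ S → x.2 q = 0) →
    ∀ q ∈ Q, x.1 q = 0 ∧ x.2 q = 0

def KILLStmt : Prop := ∀ (g : ℕ) (f : ℤ[X]) (Q : Finset ℕ), Zq g f →
  (∀ q ∈ Q, q.Prime ∧ q % 8 = 1 ∧ Ty q f) → (∀ p : ℕ, p.Prime → ¬Nx p f) → Str Q f →
  ∃ S ⊆ Q, SelT (∏ q ∈ S, (q : ℚ)) (zK f ℚ)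

/-- change of the model -/
def AFFStmt : Prop := ∀ (f F : ℚ[X]) (d r b : ℚ), d ≠ 0 → r ≠ 0 → Odd f.natDegree →
  F.comp (C (d * r ^ 2) * X + C b) = C ((d * r ^ 2) ^ f.natDegree) * f →
  (SelT d f → SelT 1 F) ∧ (Irreducible f → Irreducible F)

/-! ### B. lattices -/

def APXStmt : Prop := ∀ (p : ℕ) [Fact p.Prime] (f : ℤ[X]) (δ : ℚ[X]) (x : ℚ_[p][X]) (r : ℤ_[p][X]),
  f.Monic → zK f ℚ_[p] ∣ fK δ ℚ_[p] * x ^ 2 - iq p r → ∃ (x' : ℚ[X]) (r' : ℤ[X]) (m : ZMod p),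
    m ≠ 0 ∧ zK f ℚ ∣ δ * x' ^ 2 - zK r' ℚ ∧ zK f (ZMod p) ∣ zK r' (ZMod p) - C (m ^ 2) * rq p r

/-- gluing -/
def GLUStmt : Prop := ∀ (g : ℕ) (f : ℤ[X]) (δ : ℚ[X]) (x : ℕ → ℚ[X]) (r : ℕ → ℤ[X]) (P : Finset ℕ),
  Zq g f → (∀ p : ℕ, p.Prime → zK f ℚ ∣ δ * x p ^ 2 - zK (r p) ℚ ∧
    IsCoprime (zK (r p) (ZMod p)) (zK f (ZMod p)) ∧ (p ∉ P → x p = x 0)) →
  ∃ Λ, SD f δ Λ ∧ ∀ p : ℕ, p.Prime → ∃ m : ℤ, ¬(p : ℤ) ∣ m ∧ C (m : ℚ) * x p ∈ Λ

def LATStmt : Prop := ∀ (g : ℕ) (f : ℤ[X]) (Q : Finset ℕ) (δ : ℚ[X]), Zq g f →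
  (∀ q ∈ Q, q.Prime ∧ Ty q f) → (∀ (p : ℕ) [Fact p.Prime], Ev p f (fK δ ℚ_[p])) →
  (∀ (q : ℕ) [Fact q.Prime], q ∈ Q → NF q f (fK δ ℚ_[q]) 0 0) →
  ∃ Λ, SD f δ Λ ∧ ∀ q ∈ Q, Loc q f δ Λ

/-- the neighbour -/
def NBRStmt : Prop := ∀ (g p : ℕ) (f : ℤ[X]), Zq g f → p.Prime → p ≠ 2 → Nx p f →
  ∃ Λ, SD f 1 Λ ∧ C (p : ℚ) ∈ Λ ∧ Low g p Λ

def BS1Stmt : Prop := ∀ (g : ℕ) (f : ℤ[X]) (δ : ℚ[X]) (Λ : Set ℚ[X]), Zq g f →
  IsCoprime δ (zK f ℚ) → SD f δ Λ → ∃ b, Bs g f Λ b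

def BS2Stmt : Prop := ∀ (g : ℕ) (f : ℤ[X]) (δ : ℚ[X]) (Λ : Set ℚ[X])
  (b : Fin (2 * g + 1) → ℚ[X]), Zq g f → IsCoprime δ (zK f ℚ) → SD f δ Λ → Bs g f Λ b →
  ∃ A T, Mt g f δ b A T ∧ Rep g f A T

def STRStmt : Prop := ∀ (g q : ℕ) (f : ℤ[X]) (δ : ℚ[X]) (Λ : Set ℚ[X])
  (b : Fin (2 * g + 1) → ℚ[X]) (A T : Mat g ℤ), Zq g f → q.Prime → Ty q f → SD f δ Λ → Bs g f Λ b →
  Mt g f δ b A T → Rep g f A T → Loc q f δ Λ →
  St (zK f (ZMod q)) (mK A (ZMod q)) (mK (A * T) (ZMod q))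

/-- common isotropic subspaces -/
def UNIQStmt : Prop := ∀ (g : ℕ) (f δ : ℚ[X]) (e : Fin g → ℚ[X]), Sq g f → Irreducible f →
  IsCoprime δ f → IsSquare (Nm f δ) → (∀ z : Fin g → ℚ, f ∣ ∑ i, C (z i) * e i → z = 0) →
  (∀ i j, ta g f (δ * e i * e j) = 0 ∧ ta g f (δ * e i * (X * e j)) = 0) →
  Sqm f δ ∧ (δ = 1 → ∀ i, (e i %ₘ f).degree < g)

def MAJStmt : Prop := ∀ (g : ℕ) (f : ℤ[X]) (δ : ℚ[X]) (b : Fin (2 * g + 1) → ℚ[X]) (A T : Mat g ℤ)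
  (ρ : ℝ), Zq g f → Mt g f δ b A T → Rep g f A T → (∀ θ : ℂ, (zK f ℂ).eval θ = 0 → ‖θ‖ ≤ ρ) →
  ∃ H, Maj ρ (mK A ℝ) (mK T ℝ) H

/-- Gram-Schmidt and Hadamard -/
def GSStmt : Prop := ∀ (g : ℕ) (ρ : ℝ) (A T H : Mat g ℝ) (v : Fin (2 * g + 1) → ℝ)
  (E : Matrix (Fin g) (Fin g) ℝ), 1 ≤ ρ → Maj ρ A T H →
  (∀ i j : ℕ, i ≤ g → j ≤ g → (T ^ i *ᵥ v) ⬝ᵥ A *ᵥ (T ^ j *ᵥ v) = if i + j = 2 * g then 1 else 0) →
  E.det ^ 2 ≤ ρ ^ (g * (g + 1)) *
    ∏ i, (∑ k, E i k • T ^ k.1 *ᵥ v) ⬝ᵥ H *ᵥ ∑ k, E i k • T ^ k.1 *ᵥ v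

def DSTStmt : Prop := ∀ (g : ℕ) (f : ℤ[X]) (δ : ℚ[X]) (Λ : Set ℚ[X]) (b : Fin (2 * g + 1) → ℚ[X])
  (A T : Mat g ℤ) (H : Mat g ℝ) (M ρ : ℝ), Zq g f → IsCoprime δ (zK f ℚ) →
  IsSquare (Nm (zK f ℚ) δ) → SD f δ Λ → Bs g f Λ b → Mt g f δ b A T → 1 ≤ ρ →
  Maj ρ (mK A ℝ) (mK T ℝ) H → 0 ≤ M →
  (¬Sqm (zK f ℚ) δ ∨ δ = 1 ∧ ∃ p : ℕ, p.Prime ∧ M ≤ p ∧ Low g p Λ) → Dst M ρ A T H

def BADStmt : Prop := ∀ (g : ℕ) (f : ℤ[X]) (Q : Finset ℕ) (M ρ : ℝ), Zq g f →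
  (∀ q ∈ Q, q.Prime ∧ Ty q f) → 1 ≤ ρ → (∀ θ : ℂ, (zK f ℂ).eval θ = 0 → ‖θ‖ ≤ ρ) → 0 ≤ M →
  (¬Str Q f ∨ ∃ p : ℕ, p.Prime ∧ p ≠ 2 ∧ p ∉ Q ∧ M ≤ p ∧ Nx p f) → Cl g Q f M ρ f

/-! ### C. counting -/

/-- Hermite -/
def HERMStmt : Prop := ∀ n : ℕ, ∃ c : ℝ, ∀ H : Matrix (Fin n) (Fin n) ℝ, H.PosDef →
  ∃ P : Matrix (Fin n) (Fin n) ℤ, IsUnit P.det ∧
    Monotone (fun i => ((P.map (Int.castRingHom ℝ))ᵀ * H * P.map (Int.castRingHom ℝ)) i i) ∧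
    ∏ i, ((P.map (Int.castRingHom ℝ))ᵀ * H * P.map (Int.castRingHom ℝ)) i i ≤ c * H.det

/-- zero blocks and stabilisers -/
def ZEROStmt : Prop := ∀ (g : ℕ) (f : ℤ[X]) (A T : Mat g ℤ), Zq g f → Rep g f A T →
  (∀ k, ∃ i j, i ≤ k ∧ j ≤ Fin.rev k ∧ A i j ≠ 0) ∧
  (∀ k, 0 < k → k < 2 * g + 1 →
    ∃ i j, i.1 + k < 2 * g + 1 ∧ j.1 < k ∧ (A i j ≠ 0 ∨ (A * T) i j ≠ 0)) ∧
  ∀ (P : Mat g ℤ) (x : Fin (2 * g + 1) → ℤ), P * T = T * P → x ≠ 0 → P *ᵥ x = 0 → P = 0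

/-- the type of a reduced basis -/
def TYPStmt : Prop := ∀ g : ℕ, ∃ k : ℕ, ∀ (M ρ : ℝ) (m : ℕ) (f : ℤ[X]) (A T : Mat g ℤ)
  (H : Mat g ℝ), Zq g f → Rep g f A T → Maj ρ (mK A ℝ) (mK T ℝ) H → Dst M ρ A T H → 1 ≤ ρ →
  ρ * 2 ^ k ≤ 2 ^ m → ∃ (e : Fin (2 * g + 1) → ℤ) (P T' : Mat g ℤ), IsUnit P.det ∧ P * T' = T * P ∧
    Rep g f (Pᵀ * A * P) T' ∧ Adm m e ∧ Bx k e (Pᵀ * A * P) ∧ Bx m e (Pᵀ * A * P * T') ∧
    (Cu m e → M * 2 ^ sg e ≤ 2 ^ (m * tr g + k * g))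

/-- unipotent orbits -/
def ORBStmt : Prop := ∀ g : ℕ, ∃ k : ℕ, ∀ (e : Fin (2 * g + 1) → ℤ) (c c' : ℤ)
  (S : Mat g ℤ → Mat g ℤ → Prop) (F : Finset ℤ[X]) (G : Finset (Mat g ℤ × Mat g ℤ)), Monotone e →
  (∀ P A B : Mat g ℤ, IsUnit P.det → S A B → S (Pᵀ * A * P) (Pᵀ * B * P)) →
  (∀ f ∈ F, Zq g f ∧ ∃ A T, Rep g f A T ∧ Bx c e A ∧ Bx c' e (A * T) ∧ S A (A * T)) →
  (∀ A B, Bx (c + k) e A → IsUnit A.det → Bx (c' + k) e B → S A B → (A, B) ∈ G) →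
  (F.card : ℝ) * 2 ^ un e ≤ G.card

/-- points of a box in residue classes -/
def BXCStmt : Prop := ∀ (ι : Type) [Fintype ι] (L : ι → ℝ), (∀ i, 0 ≤ L i) →
  {z : ι → ℤ | ∀ i, |(z i : ℝ)| ≤ L i}.Finite ∧
  (∀ (Q : Finset ℕ) (S : ∀ q : ℕ, Set (ι → ZMod q)), (∀ q ∈ Q, 0 < q) →
    (Q : Set ℕ).Pairwise Nat.Coprime →
    ({z : ι → ℤ | (∀ i, |(z i : ℝ)| ≤ L i) ∧ ∀ q ∈ Q, (fun i => (z i : ZMod q)) ∈ S q}.ncard : ℝ) ≤
      (∏ q ∈ Q, ((S q).ncard : ℝ)) * ∏ i, (2 * L i / (∏ q ∈ Q, (q : ℝ)) + 1)) ∧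
  ∀ (m : ℕ) (z₀ : ι → ℤ), 0 < m → (∀ i, (m : ℝ) ≤ 2 * L i) → ∏ i, (2 * L i / m - 1) ≤
    ({z : ι → ℤ | (∀ i, |(z i : ℝ)| ≤ L i) ∧ ∀ i, (z i : ZMod m) = z₀ i}.ncard : ℝ)

def BOXStmt : Prop := ∀ (g : ℕ) (c : ℤ) (e : Fin (2 * g + 1) → ℤ), {A | Bx c e A}.Finite ∧
  ({A | Bx c e A}.ncard : ℝ) ≤ 3 ^ dm g * 2 ^ ex c e ∧
  ∀ (Q : Finset ℕ) (S : ∀ q : ℕ, Set (Mat g (ZMod q))), (∀ q ∈ Q, q.Prime) →
    (∀ i j, ∏ q ∈ Q, (q : ℝ) ≤ 2 ^ (c + e i + e j)) →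
    ({B | Bx c e B ∧ ∀ q ∈ Q, mK B (ZMod q) ∈ S q}.ncard : ℝ) ≤
      (∏ q ∈ Q, ({B ∈ S q | B.IsSymm}.ncard / (q : ℝ) ^ dm g)) * (3 ^ dm g * 2 ^ ex c e)

/-- the exponents -/
def EXPStmt : Prop := ∀ (g m : ℕ) (e : Fin (2 * g + 1) → ℤ),
  (∀ (c : ℤ) (k : ℕ), ex (c + k) e ≤ ex c e + k * dm g) ∧ (Adm m e →
  (¬Cu m e → ex 0 e + ex m e - un e ≤ m * dm g - mn m e) ∧
  (Cu m e → ex 0 e + ex m e - un e ≤ m * dm g + sg e - m * tr g))

/-- the sums over the cusps -/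
def SUMStmt : Prop := ∀ g : ℕ, ∃ c : ℝ, 0 < c ∧
  (∀ (m : ℕ) (E : Finset (Fin (2 * g + 1) → ℤ)), (∀ e ∈ E, Adm m e) →
    ∑ e ∈ E, (2 : ℝ) ^ (-mn m e) ≤ c) ∧
  (∀ ε : ℝ, 0 < ε → ∃ R : ℕ, ∀ᶠ m : ℕ in atTop, ∀ E : Finset (Fin (2 * g + 1) → ℤ),
    (∀ e ∈ E, Adm m e ∧ ∃ i, e i < -R) → ∑ e ∈ E, (2 : ℝ) ^ (-mn m e) ≤ ε) ∧
  ∀ (m : ℕ) (Z : ℝ) (E : Finset (Fin (2 * g + 1) → ℤ)), 0 < Z →
    (∀ e ∈ E, Adm m e ∧ Z * 2 ^ sg e ≤ 2 ^ (m * tr g)) →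
    ∑ e ∈ E, (2 : ℝ) ^ (sg e - m * tr g) ≤ c / √Z

/-- the count over a finite field -/
def FCStmt : Prop := ∀ g : ℕ, 1 ≤ g → ∃ q₀ : ℕ, ∀ (F : Type) [Field F] [Fintype F] [DecidableEq F],
  q₀ ≤ Fintype.card F → (2 : F) ≠ 0 → ∀ A : Mat g F, A.IsSymm → A.det ≠ 0 →
  ∀ (a : F) (h : F[X]), Irreducible h → h.natDegree = 2 * g →
  4 * Nat.card {T : Mat g F // (A * T).IsSymm ∧ T.charpoly = (X - C a) * h ∧
    ∃ x s, s ≠ 0 ∧ T *ᵥ x = a • x ∧ x ⬝ᵥ A *ᵥ x = s ^ 2} ≤ 3 * Fintype.card F ^ (g * (2 * g + 1))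

def SQStmt : Prop := (∀ (R : Type) [CommRing R] (g : ℕ) (f : R[X]) (P A B : Mat g R),
    IsUnit P.det → St f A B → St f (Pᵀ * A * P) (Pᵀ * B * P)) ∧
  ∀ g : ℕ, 1 ≤ g → ∃ q₀ : ℕ, ∀ (q : ℕ) (f : ℤ[X]) (A : Mat g ℤ), q.Prime → q₀ ≤ q → Ty q f →
    A.IsSymm → IsUnit A.det →
    ({B ∈ {B | St (zK f (ZMod q)) (mK A (ZMod q)) B} | B.IsSymm}.ncard : ℝ) / (q : ℝ) ^ dm g ≤
      3 / 4 / (q : ℝ) ^ (2 * g + 1)

def COUNTStmt : Prop := ∀ g : ℕ, 1 ≤ g → ∃ (q₀ : ℕ) (c : ℝ), 0 < c ∧ ∀ (Q : Finset ℕ) (f₀ : ℤ[X])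
  (M ε : ℝ), (∀ q ∈ Q, q.Prime ∧ q₀ ≤ q ∧ Ty q f₀) → 0 < M → 0 < ε → ∀ᶠ ρ : ℝ in atTop,
  ∀ F : Finset ℤ[X], (∀ f ∈ F, Zq g f ∧ Cl g Q f₀ M ρ f) → (F.card : ℝ) ≤
    (c * (3 / 4) ^ Q.card / (∏ q ∈ Q, (q : ℝ)) ^ (2 * g + 1) + ε + c / √M) * ρ ^ dm g

/-- coefficients and roots -/
def ROOTStmt : Prop := (∀ (R : Type) [CommRing R] [Nontrivial R] (n : ℕ),
    (∀ c : Fin n → R, (pc c).Monic ∧ (pc c).natDegree = n ∧
      ∀ i : Fin n, (pc c).coeff (n - 1 - i.1) = c i) ∧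
    (∀ f : R[X], f.Monic → f.natDegree = n → ∃ c : Fin n → R, pc c = f) ∧
    ∀ (S : Type) [CommRing S] (φ : R →+* S) (c : Fin n → R), (pc c).map φ = pc fun i => φ (c i)) ∧
  ∀ (n H : ℕ) (c : Fin n → ℤ), 1 ≤ H → Box H c → ∀ θ : ℂ, (zK (pc c) ℂ).eval θ = 0 → ‖θ‖ ≤ 2 * H

/-- the density of the polynomials that are not maximal -/
def BETAStmt : Prop := ∀ n p : ℕ, p.Prime →
  ({x : Fin n → ZMod (p ^ 2) | ∃ c : Fin n → ℤ, (fun i => (c i : ZMod (p ^ 2))) = x ∧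
    Nx p (pc c)}.ncard : ℝ) ≤ (p : ℝ) ^ (2 * n) / ((p : ℝ) ^ 2 - 1)

def IRRStmt : Prop := ∀ (p : ℕ) [Fact p.Prime] (n : ℕ), 1 ≤ n →
  (∃ h : (ZMod p)[X], h.Monic ∧ h.natDegree = n ∧ Irreducible h) ∧
  (p ≠ 2 → ∃ h : (ZMod p)[X], h.Monic ∧ h.natDegree = 2 * n ∧ Irreducible h ∧ IsSquare (h.eval 0))

def BASEStmt : Prop := ∀ g q₀ N : ℕ, 1 ≤ g → ∃ (Q : Finset ℕ) (c : Fin (2 * g + 1) → ℤ),
  Q.card = N ∧ Irreducible (zK (pc c) (ZMod 2)) ∧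
  ∀ q ∈ Q, q.Prime ∧ q % 8 = 1 ∧ q₀ ≤ q ∧ Ty q (pc c)

/-- the small primes -/
def LOWStmt : Prop := ∀ (g : ℕ) (Q : Finset ℕ) (c₀ : Fin (2 * g + 1) → ℤ) (M : ℝ),
  (∀ q ∈ Q, q.Prime ∧ q ≠ 2) → ∀ᶠ H : ℕ in atTop,
  1 / 2 / (∏ q ∈ Q, (q : ℝ)) ^ (2 * g + 1) * (H : ℝ) ^ dm g ≤
    ({c : Fin (2 * g + 1) → ℤ | Box H c ∧ (∀ i, (c i : ZMod (2 * ∏ q ∈ Q, q)) = c₀ i) ∧
      ∀ p : ℕ, p.Prime → p ≠ 2 → p ∉ Q → (p : ℝ) < M → ¬Nx p (pc c)}.ncard : ℝ)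

def SIEVEStmt : Prop := ∀ g : ℕ, 1 ≤ g → ∃ (Q : Finset ℕ) (ε : ℝ), 0 < ε ∧ (∀ q ∈ Q, 0 < q) ∧
  ∀ᶠ H : ℕ in atTop, ε * (H : ℝ) ^ dm g ≤ ({c : Fin (2 * g + 1) → ℤ | Box H c ∧ Zq g (pc c) ∧
    ∃ S ⊆ Q, SelT (∏ q ∈ S, (q : ℚ)) (zK (pc c) ℚ)}.ncard : ℝ)

/-- twist and translate -/
def TRAStmt : Prop := ∀ (g d : ℕ), 0 < d → ∃ k : ℕ, 0 < k ∧ ∀ (H : ℕ) (c : Fin (2 * g + 1) → ℤ),
  1 ≤ H → Box H c → ∃ c' : Fin (2 * g) → ℤ, (∀ i, |c' i| ≤ ((k * H : ℕ) : ℤ) ^ (i.1 + 2)) ∧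
    (bg g c').comp (C ((d : ℚ) * (2 * g + 1) ^ 2) * X + C ((d : ℚ) * (2 * g + 1) * c 0)) =
      C (((d : ℚ) * (2 * g + 1) ^ 2) ^ (2 * g + 1)) * zK (pc c) ℚ

/-! ### D. descent -/

def ZVStmt : Prop := ∀ (K : Type) [Field K] [CharZero K] [IsAlgClosed K] (g : ℕ) (f : K[X]),
  Sq g f → (∀ R D ρ w, ZV f R D ρ → Nu D w → R ^ 2 = cl D ∧ ∀ θ, f.eval θ = 0 → ρ θ ^ 2 = nb w θ) ∧
  (∀ R D w, Nu D w → IsCoprime w f → R ^ 2 = cl D → ∃ ρ, ZV f R D ρ) ∧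
  (∀ R D ρ R' D' ρ', ZV f R D ρ → ZV f R' D' ρ' → ZV f (R * R') (D * D') fun θ => ρ θ * ρ' θ) ∧
  (∀ R R' D ρ ρ', ZV f R D ρ → ZV f R' D ρ' → ZV f (R' / R) ⊤ fun θ => ρ' θ / ρ θ) ∧
  (∀ T ε, ZV f T ⊤ ε → (T = 1 ↔ ∀ θ, f.eval θ = 0 → ε θ = 1)) ∧
  (∀ (L : Type) [Field L] (φ : K →+* L) (F : L[X]) (e : f.map φ = F), ∀ R D ρ (ρ' : L → L),
    ZV f R D ρ → (∀ θ, f.eval θ = 0 → ρ' (φ θ) = φ (ρ θ)) →
    ZV F (CommRing.Pic.mapRingHom (rmap φ e) R) (D.map (rmap φ e)) ρ') ∧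
  (∀ ε : K → K, (∀ θ, f.eval θ = 0 → ε θ ^ 2 = 1) →
    ∃ T η, η ^ 2 = 1 ∧ ZV f T ⊤ fun θ => η * ε θ) ∧
  (∀ x : CommRing.Pic (Rg f), ∃ R, R ^ 2 = x) ∧ cl (⊤ : Ideal (Rg f)) = 1 ∧
  Nu (⊤ : Ideal (Rg f)) 1 ∧ ∀ U V : K[X], U.Monic → U ∣ f - V ^ 2 → Nu (MI f U V) U

/-- rational representatives -/
def RATStmt : Prop := (∀ (K : Type) [Field K] [CharZero K] (g : ℕ) (f : K[X])
    (F : (AlgebraicClosure K)[X]), Sq g f → f.map (algebraMap K _) = F →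
    ∀ P : CommRing.Pic (Rg F), (∀ (σ : AlgebraicClosure K ≃ₐ[K] AlgebraicClosure K)
      (e : F.map (σ : AlgebraicClosure K →+* AlgebraicClosure K) = F),
        CommRing.Pic.mapRingHom (rmap _ e) P = P) →
    ∃ U V : K[X], U.Monic ∧ U ∣ f - V ^ 2 ∧ IsCoprime U f ∧
      cl (MI F (U.map (algebraMap K _)) (V.map (algebraMap K _))) = P) ∧
  ∀ (g : ℕ) (f : ℚ[X]), Sq g f → ∀ R : Jac f Qb, IsLocallyConstant fun σ => jac f σ R

/-- equivariant functions on the roots -/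
def EQVStmt : Prop := ∀ (K : Type) [Field K] [CharZero K] (f : K[X]), f.Separable →
  (∀ s : AlgebraicClosure K → AlgebraicClosure K, (∀ (σ : AlgebraicClosure K ≃ₐ[K] AlgebraicClosure K)
    (θ : AlgebraicClosure K), aeval θ f = 0 → σ (s θ) = s (σ θ)) →
    ∃ z : K[X], ∀ θ : AlgebraicClosure K, aeval θ f = 0 → aeval θ z = s θ) ∧
  (∀ P : K[X], (∀ θ : AlgebraicClosure K, aeval θ f = 0 → aeval θ P = 0) → f ∣ P) ∧
  ∀ P : K[X], IsCoprime P f ↔ ∀ θ : AlgebraicClosure K, aeval θ f = 0 → aeval θ P ≠ 0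

/-- Hilbert 90 for the permutation action -/
def H90Stmt : Prop := ∀ (f : ℚ[X]) (A : Type) (c : (Qb ≃ₐ[ℚ] Qb) → A) (u : (Qb ≃ₐ[ℚ] Qb) → Qb → Qb),
  Irreducible f → IsLocallyConstant c → (∀ σ θ, aeval θ f = 0 → u σ θ ^ 2 = 1) →
  (∀ σ τ θ, aeval θ f = 0 → u (σ * τ) (σ θ) = u σ (σ θ) * u τ θ) →
  (∀ σ θ, aeval θ f = 0 → c σ = c 1 → u σ θ = u 1 θ) →
  ∃ (δ : ℚ[X]) (r : Qb → Qb), IsCoprime δ f ∧ (∀ θ, aeval θ f = 0 → r θ ^ 2 = aeval θ δ) ∧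
    ∀ (σ : Qb ≃ₐ[ℚ] Qb) (θ : Qb), aeval θ f = 0 → σ (r θ) = u σ (σ θ) * r (σ θ)

def SHAStmt : Prop := ∀ (g : ℕ) (f : ℚ[X]), Sq g f → Irreducible f → SelT 1 f →
  ∀ k : ℕ, ∀ x ∈ JSha f, 2 ^ k • x = 0 → x = 0

def IDXStmt : Prop := ∀ (g : ℕ) (f : ℚ[X]), Sq g f → SelT 1 f → ∀ P : JQ f, ∃ R : JQ f, 2 • R = P

def MWStmt : Prop := ∀ (g : ℕ) (f : ℤ[X]), 1 ≤ g → f.Monic → f.natDegree = 2 * g + 1 →
  (zK f ℚ).Separable →
  (nsmulAddMonoidHom 2 : JQ (zK f ℚ) →+ JQ (zK f ℚ)).range.index ≠ 0 → AddGroup.FG (JQ (zK f ℚ))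

def DESCStmt : Prop := ∀ (g : ℕ) (c : Fin (2 * g) → ℤ), 1 ≤ g → Irreducible (bg g c) →
  SelT 1 (bg g c) → Good (bg g c)

def MainStmt : Prop := ∀ g : ℕ, 1 ≤ g → ∃ ε : ℝ, 0 < ε ∧ ∀ᶠ H : ℕ in atTop,
  ε * ({c : Fin (2 * g) → ℤ | ∀ i, |c i| ≤ (H : ℤ) ^ (i.1 + 2)}.ncard : ℝ) ≤
    ({c : Fin (2 * g) → ℤ | (∀ i, |c i| ≤ (H : ℤ) ^ (i.1 + 2)) ∧ Good (bg g c)}.ncard : ℝ)

theorem main_of (symb : SYMBStmt) (gram : GRAMStmt) (wg : GRAMStmt → WGStmt) (qs : QSStmt) (diag :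
      DIAGStmt) (hinv : HINVStmt) (pad : PADStmt) (locu : GRAMStmt → DIAGStmt → HINVStmt → PADStmt
      → LOCUStmt) (hens : HENSStmt) (locq : GRAMStmt → DIAGStmt → HINVStmt → PADStmt → HENSStmt →
      LOCQStmt) (cmp : CMPStmt) (nfm : NFMStmt) (nfe : GRAMStmt → HENSStmt → CMPStmt → NFEStmt)
      (ram : SYMBStmt → GRAMStmt → WGStmt → QSStmt → DIAGStmt → HINVStmt → PADStmt → LOCQStmt →
      HENSStmt → CMPStmt → NFMStmt → RAMStmt) (intm : INTStmt) (nxp : NXPStmt) (ev : GRAMStmt →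
      WGStmt → INTStmt → NXPStmt → EVStmt) (pf : PFStmt) (recp : SYMBStmt → GRAMStmt → QSStmt →
      DIAGStmt → HINVStmt → LOCUStmt → LOCQStmt → NFMStmt → PFStmt → RECStmt) (lag : LAGStmt)
      (kill : GRAMStmt → WGStmt → PADStmt → NFMStmt → NFEStmt → RAMStmt → EVStmt → RECStmt →
      LAGStmt → KILLStmt) (aff : AFFStmt) (apx : APXStmt) (glu : GRAMStmt → GLUStmt) (lat :
      GRAMStmt → APXStmt → GLUStmt → LATStmt) (nbr : NBRStmt) (bs1 : BS1Stmt) (bs2 : BS2Stmt)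
      (strq : STRStmt) (uniq : GRAMStmt → UNIQStmt) (maj : MAJStmt) (gs : GSStmt) (dst : UNIQStmt
      → GSStmt → DSTStmt) (bad : GRAMStmt → LATStmt → NBRStmt → BS1Stmt → BS2Stmt → STRStmt →
      MAJStmt → DSTStmt → BADStmt) (herm : HERMStmt) (zero : ZEROStmt) (typ : HERMStmt → ZEROStmt
      → TYPStmt) (orb : ZEROStmt → ORBStmt) (bxc : BXCStmt) (box : BXCStmt → BOXStmt) (expo :
      EXPStmt) (sums : SUMStmt) (fc : FCStmt) (sq : FCStmt → SQStmt) (count : TYPStmt → ORBStmt →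
      BOXStmt → EXPStmt → SUMStmt → SQStmt → COUNTStmt) (root : ROOTStmt) (beta : ROOTStmt →
      BETAStmt) (irr : IRRStmt) (base : ROOTStmt → IRRStmt → BASEStmt) (low : BXCStmt → BETAStmt →
      LOWStmt) (sieve : NXPStmt → KILLStmt → BADStmt → COUNTStmt → ROOTStmt → BASEStmt → LOWStmt →
      BXCStmt → SIEVEStmt) (tra : ROOTStmt → TRAStmt) (zv : ZVStmt) (rat : RATStmt) (eqv :
      EQVStmt) (h90u : EQVStmt → H90Stmt) (sha : ZVStmt → RATStmt → EQVStmt → H90Stmt → SHAStmt)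
      (idx : WGStmt → ZVStmt → RATStmt → EQVStmt → IDXStmt) (mw : MWStmt) (desc : SHAStmt →
      IDXStmt → MWStmt → DESCStmt) (fin : AFFStmt → BXCStmt → ROOTStmt → SIEVEStmt → TRAStmt →
      DESCStmt → MainStmt) :
    MainStmt :=
  have hWG := wg gram
  have hLOCU := locu gram diag hinv pad
  have hLOCQ := locq gram diag hinv pad hens
  have hNFE := nfe gram hens cmp
  have hRAM := ram symb gram hWG qs diag hinv pad hLOCQ hens cmp nfm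
  have hEV := ev gram hWG intm nxp
  have hREC := recp symb gram qs diag hinv hLOCU hLOCQ nfm pf
  have hKILL := kill gram hWG pad nfm hNFE hRAM hEV hREC lag
  have hGLU := glu gram
  have hLAT := lat gram apx hGLU
  have hUNIQ := uniq gram
  have hDST := dst hUNIQ gs
  have hBAD := bad gram hLAT nbr bs1 bs2 strq maj hDST
  have hTYP := typ herm zero
  have hORB := orb zero
  have hBOX := box bxc
  have hSQ := sq fc
  have hCOUNT := count hTYP hORB hBOX expo sums hSQ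
  have hBETA := beta root
  have hBASE := base root irr
  have hLOW := low bxc hBETA
  have hSIEVE := sieve nxp hKILL hBAD hCOUNT root hBASE hLOW bxc
  have hTRA := tra root
  have hH90 := h90u eqv
  have hSHA := sha zv rat eqv hH90
  have hIDX := idx hWG zv rat eqv
  have hDESC := desc hSHA hIDX mw
  fin aff bxc root hSIEVE hTRA hDESC

end Pool.Agent.MP_a43263_nt.UV

end
end MrgPart0

-- ======== part 1: formerly Pool.Agent.MP_a43263_nt.UC.Red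
section MrgPart1

/-! Dyadic exponents and reduced bases. -/

namespace Pool.Agent.MP_a43263_nt.UC

open Polynomial Matrix Finset

namespace Red

variable {n : ℕ}

theorem exists_entry {A : Mz n} (hA : A.det ≠ 0) (p : Fin n) :
    ∃ a ≤ p, ∃ b ≤ p.rev, A a b ≠ 0 := by
  rw [det_apply] at hA
  obtain ⟨σ, -, hσ⟩ := exists_ne_zero_of_sum_ne_zero hA
  have h1 : ∀ i, A (σ i) i ≠ 0 := fun i h =>
    hσ (by rw [prod_eq_zero (f := fun i => A (σ i) i) (mem_univ i) h, smul_zero])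
  by_contra H
  have h2 : ∀ b ∈ Iic p.rev, σ b ∈ Ioi p := fun b hb =>
    mem_Ioi.2 (lt_of_not_ge fun h => H ⟨_, h, b, mem_Iic.1 hb, h1 b⟩)
  have h3 := card_le_card_of_injOn σ h2 σ.injective.injOn
  rw [Fin.card_Iic, Fin.card_Ioi, Fin.val_rev] at h3
  omega

theorem conj_pow {A T γ γ' : Mz n} (h : γ * γ' = 1) (j : ℕ) :
    γᵀ * A * γ * (γ' * T * γ) ^ j = γᵀ * (A * T ^ j) * γ := by
  induction j with
  | zero => simp
  | succ j ih =>
    rw [pow_succ, ← mul_assoc, ih, pow_succ]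
    calc _ = γᵀ * (A * T ^ j) * (γ * γ') * T * γ := by simp only [mul_assoc]
      _ = _ := by rw [h]; simp only [mul_assoc, one_mul]

theorem entry (B γ : Mz n) (p q : Fin n) : (γᵀ * B * γ) p q = γᵀ p ⬝ᵥ B *ᵥ γᵀ q := by
  rw [mul_assoc]
  rfl

end Red

theorem dy : DYStmt := by
  intro n C
  obtain ⟨κ, hκ⟩ := pow_unbounded_of_one_lt (2 * |C|) (one_lt_two (α := ℝ))
  refine ⟨κ, fun A s hA h0 hm hC hb => ?_⟩
  have h1 : ∀ p, 1 ≤ s p * s p.rev := fun p => by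
    obtain ⟨a, ha, b, hb', h⟩ := Red.exists_entry hA p
    have : (1 : ℝ) ≤ |(A a b : ℝ)| := by exact_mod_cast Int.one_le_abs h
    exact this.trans ((hb a b).trans (mul_le_mul (hm ha) (hm hb') (h0 b).le (h0 p).le))
  have h2 : ∏ p, s p * s p.rev ≤ C ^ 2 := by
    have e : ∏ p : Fin n, s p.rev = ∏ p, s p := Equiv.prod_comp Fin.revPerm s
    rw [prod_mul_distrib, e, ← sq]
    exact pow_le_pow_left₀ (prod_nonneg fun p _ => (h0 p).le) hC 2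
  have h3 : ∀ p, s p * s p.rev ≤ C ^ 2 := fun p => by
    refine le_trans ?_ h2
    rw [← mul_prod_erase _ _ (mem_univ p)]
    exact le_mul_of_one_le_right (zero_le_one.trans (h1 p)) (one_le_prod fun q _ => h1 q)
  refine ⟨fun p => Int.log 4 (s p) - Int.log 4 (s p.rev), ⟨fun p q h => ?_, fun p => ?_⟩,
    fun p => ?_⟩
  · exact sub_le_sub (Int.log_mono_right (h0 p) (hm h))
      (Int.log_mono_right (h0 _) (hm (Fin.rev_le_rev.2 h)))
  · simp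
  · beta_reduce
    have a := Int.lt_zpow_succ_log_self (b := 4) (by norm_num) (s p)
    have b := Int.zpow_log_le_self (b := 4) (by norm_num) (h0 p.rev)
    generalize Int.log 4 (s p) = x at a ⊢
    generalize Int.log 4 (s p.rev) = y at b ⊢
    have e4 : ∀ z : ℤ, ((4 : ℕ) : ℝ) ^ z = (2 ^ z) ^ 2 := fun z => by
      rw [sq, ← mul_zpow]; norm_num
    rw [e4] at b
    rw [zpow_add_one₀ (by norm_num), e4] at a
    have px : (0 : ℝ) < 2 ^ x := by positivity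
    have py : (0 : ℝ) < 2 ^ y := by positivity
    rw [zpow_add₀ two_ne_zero, zpow_sub₀ two_ne_zero, zpow_natCast, ← mul_div_assoc,
      le_div_iff₀ py]
    refine le_trans ?_ (mul_le_mul_of_nonneg_right hκ.le px.le)
    refine abs_le_of_sq_le_sq' ?_ (by positivity) |>.2
    calc (s p * 2 ^ y) ^ 2 = s p * (s p * (2 ^ y) ^ 2) := by ring
      _ ≤ (2 ^ x) ^ 2 * (4 : ℕ) * C ^ 2 :=
        mul_le_mul a.le ((mul_le_mul_of_nonneg_left b (h0 p).le).trans (h3 p))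
          (mul_pos (h0 p) (by positivity)).le (by positivity)
      _ = _ := by rw [mul_pow, mul_pow, sq_abs]; push_cast; ring

theorem red : HERMStmt → MAJStmt → REDStmt := by
  intro he ma n
  obtain ⟨C, -, hC⟩ := he n
  obtain ⟨κ, hκ⟩ := dy n √C
  refine ⟨2 * κ, fun X k A T hP hI hH hk => ?_⟩
  obtain ⟨H, hH, hd, hb⟩ := ma n X A T hP hI hH
  obtain ⟨γ, γ', hγ, hm, hp⟩ := hC H hH
  have h0 : ∀ p, 0 < Hq H (γᵀ p) := fun p => by
    have h1 : (fun i => ((γᵀ p i : ℤ) : ℝ)) ≠ 0 := fun h => by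
      have h2 : ∀ i, γ i p = 0 := fun i => Int.cast_eq_zero.1 (congrFun h i)
      have h3 : (γ' * γ) p p = (1 : Mz n) p p := by rw [mul_eq_one_comm.1 hγ]
      simp [mul_apply, h2] at h3
    simpa [Hq] using hH.dotProduct_mulVec_pos h1
  have hb' : ∀ j p q, |((γᵀ * (A * T ^ j) * γ) p q : ℝ)| ≤
      (2 * X) ^ j * (√(Hq H (γᵀ p)) * √(Hq H (γᵀ q))) := fun j p q => by
    refine abs_le_of_sq_le_sq ?_ (by positivity)
    rw [Red.entry, mul_pow, mul_pow _ _ 2, Real.sq_sqrt (h0 p).le, Real.sq_sqrt (h0 q).le, ← pow_mul,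
      mul_comm j]
    exact hb j _ _
  have hdet : (γᵀ * A * γ).det ≠ 0 := by
    have h1 : γ.det ≠ 0 := left_ne_zero_of_mul_eq_one (by rw [← det_mul, hγ, det_one])
    rw [det_mul, det_mul, det_transpose]
    exact mul_ne_zero (mul_ne_zero h1 hP.2.1.ne_zero) h1
  obtain ⟨e, h1, h2⟩ := hκ (γᵀ * A * γ) (fun p => √(Hq H (γᵀ p))) hdet
    (fun p => Real.sqrt_pos.2 (h0 p)) (fun p q h => Real.sqrt_le_sqrt (hm h))
    (by
      rw [← Real.sqrt_prod _ fun p _ => (h0 p).le]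
      exact Real.sqrt_le_sqrt (by simpa [hd] using hp))
    (fun p q => by simpa using hb' 0 p q)
  refine ⟨γ, γ', e, hγ, h1, fun j p q => ?_⟩
  rw [Red.conj_pow hγ]
  refine (hb' j p q).trans ?_
  have h3 : (2 * X : ℝ) ≤ 2 ^ k := by exact_mod_cast hk
  calc _ ≤ ((2 : ℝ) ^ k) ^ j * (2 ^ ((κ : ℤ) + e p) * 2 ^ ((κ : ℤ) + e q)) := by
        gcongr
        exacts [h2 p, h2 q]
    _ = _ := by
      rw [← pow_mul, ← zpow_natCast, ← zpow_add₀ two_ne_zero, ← zpow_add₀ two_ne_zero]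
      congr 1
      push_cast
      ring

end Pool.Agent.MP_a43263_nt.UC

end MrgPart1

-- ======== part 2: formerly Pool.Agent.MP_a43263_nt.U99.Orth
section MrgPart2

/-! An upper bound for the order of an orthogonal group over a finite field. -/

set_option autoImplicit false

open Module

namespace Pool.Agent.MP_a43263_nt.U99

variable {F : Type} [Field F] [Finite F]

/-- the vectors orthogonal to `e` -/
abbrev perp {V : Type} [AddCommGroup V] [Module F V] (B : LinearMap.BilinForm F V) (e : V) :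
    Submodule F V := LinearMap.ker (B e)

section

variable {V : Type} [AddCommGroup V] [Module F V] [FiniteDimensional F V]
  (B : LinearMap.BilinForm F V)

omit [Finite F] in
lemma finrank_perp {e : V} (he : B e e ≠ 0) : finrank F (perp B e) + 1 = finrank F V := by
  have h := LinearMap.finrank_range_add_finrank_ker (B e)
  have h1 : LinearMap.range (B e) = ⊤ := by
    rw [LinearMap.range_eq_top]
    intro c
    exact ⟨(c / B e e) • e, by simp [he]⟩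
  rw [h1, finrank_top, finrank_self] at h
  rw [← h, add_comm]

omit [Finite F] [FiniteDimensional F V] in
lemma proj_mem {e : V} (he : B e e ≠ 0) (x : V) : x - (B e x / B e e) • e ∈ perp B e := by
  simp [he]

omit [Finite F] [FiniteDimensional F V] in
lemma perp_nondeg (hs : ∀ x y, B x y = B y x) (hn : ∀ x, (∀ y, B x y = 0) → x = 0) {e : V}
    (he : B e e ≠ 0) (x : perp B e) (hx : ∀ y : perp B e, B x y = 0) : x = 0 := by
  refine Subtype.ext (hn x fun y => ?_)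
  have h1 := hx ⟨_, proj_mem B he y⟩
  have h2 : B e x = 0 := x.2
  rw [hs] at h2
  simpa [h2] using h1

omit [Finite F] [FiniteDimensional F V] in
lemma exists_aniso (h2 : (2 : F) ≠ 0) (hs : ∀ x y, B x y = B y x)
    (hn : ∀ x, (∀ y, B x y = 0) → x = 0) {x : V} (hx : x ≠ 0) : ∃ e, B e e ≠ 0 := by
  by_contra h
  push Not at h
  refine hx (hn x fun y => ?_)
  have h1 := h (x + y)
  simp only [map_add, LinearMap.add_apply, h x, h y, hs y x] at h1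
  have : 2 * B x y = 0 := by linear_combination h1
  exact (mul_eq_zero.1 this).resolve_left h2

/-- a level set meets every line in an anisotropic direction in at most two points -/
lemma level_le (hs : ∀ x y, B x y = B y x) {e : V} (he : B e e ≠ 0) (c : F) :
    Nat.card {x : V // B x x = c} ≤ 2 * Nat.card F ^ (finrank F V - 1) := by
  classical
  have : Finite V := Module.finite_of_finite F
  obtain ⟨r, hr⟩ : ∃ r : F → F, ∀ t : F, t = r (t ^ 2) ∨ t = -r (t ^ 2) := by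
    refine ⟨fun u => if h : ∃ s : F, s ^ 2 = u then h.choose else 0, fun t => ?_⟩
    have h : ∃ s : F, s ^ 2 = t ^ 2 := ⟨t, rfl⟩
    simp only [dif_pos h]
    exact sq_eq_sq_iff_eq_or_eq_neg.1 h.choose_spec.symm
  let φ : {x : V // B x x = c} → Bool × perp B e := fun x =>
    (decide (B e x / B e e = r ((B e x / B e e) ^ 2)), ⟨_, proj_mem B he x⟩)
  have hφ : Function.Injective φ := by
    intro x y hxy
    obtain ⟨h1, h2⟩ := Prod.mk.inj hxy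
    have h3 : (x : V) - (B e x / B e e) • e = y - (B e y / B e e) • e := congrArg Subtype.val h2
    have key : ∀ z : V, B z z = B (z - (B e z / B e e) • e) (z - (B e z / B e e) • e) +
        (B e z / B e e) ^ 2 * B e e := fun z => by
      simp only [map_sub, map_smul, LinearMap.sub_apply, LinearMap.smul_apply, smul_eq_mul,
        hs z e]
      field_simp
      ring
    have h4 : (B e x / B e e) ^ 2 = (B e y / B e e) ^ 2 := by
      have a := key x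
      have b := key y
      rw [h3, x.2] at a
      rw [y.2] at b
      exact mul_right_cancel₀ he (by linear_combination b - a)
    have h5 : B e x / B e e = B e y / B e e := by
      have h6 := decide_eq_decide.1 h1
      have a := hr (B e x / B e e)
      have b := hr (B e y / B e e)
      rw [h4] at a h6
      by_cases h7 : B e x / B e e = r ((B e y / B e e) ^ 2)
      · exact h7.trans (h6.1 h7).symm
      · exact (a.resolve_left h7).trans (b.resolve_left fun h => h7 (h6.2 h)).symm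
    rw [h5] at h3
    exact Subtype.ext (sub_left_injective h3)
  have := Nat.card_le_card_of_injective φ hφ
  rwa [Nat.card_prod, Nat.card_eq_fintype_card (α := Bool), Fintype.card_bool,
    Module.natCard_eq_pow_finrank (K := F) (V := perp B e),
    show finrank F (perp B e) = finrank F V - 1 by have := finrank_perp B he; omega] at this

/-- stereographic projection -/
lemma sphere_le (h2 : (2 : F) ≠ 0) (hs : ∀ x y, B x y = B y x)
    (hn : ∀ x, (∀ y, B x y = 0) → x = 0) {m : ℕ} (hm : finrank F V = m + 2) {c : F} (hc : c ≠ 0) :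
    Nat.card {x : V // B x x = c} ≤ Nat.card F ^ m * (Nat.card F + 2) := by
  classical
  have : Finite V := Module.finite_of_finite F
  rcases isEmpty_or_nonempty {x : V // B x x = c} with h | ⟨⟨P, hP⟩⟩
  · simp
  have hPP : B P P ≠ 0 := hP ▸ hc
  have hr : finrank F (perp B P) = m + 1 := by have := finrank_perp B hPP; omega
  let B' : LinearMap.BilinForm F (perp B P) := B.restrict (perp B P)
  have hs' : ∀ x y, B' x y = B' y x := fun x y => hs _ _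
  obtain ⟨w, hw⟩ : ∃ w : perp B P, w ≠ 0 := by
    have := Module.nontrivial_of_finrank_eq_succ hr
    exact exists_ne 0
  obtain ⟨e, he⟩ := exists_aniso B' h2 hs' (perp_nondeg B hs hn hPP) hw
  have hl := level_le B' hs' he 0
  let φ : {x : V // B x x = c} → perp B P ⊕ {w : perp B P // B' w w = 0} := fun x =>
    if h : B P x = c then Sum.inr ⟨⟨x - P, by simp [h, hP]⟩, by
      simp [B', x.2, h, hP, hs x P]⟩
    else Sum.inl ⟨(B P x - c)⁻¹ • ((x : V) - P) - c⁻¹ • P, by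
      have : B P x - c ≠ 0 := sub_ne_zero.2 h
      simp only [LinearMap.mem_ker, map_sub, map_smul, smul_eq_mul, hP]
      field_simp
      ring⟩
  have hφ : Function.Injective φ := by
    intro x y hxy
    by_cases hx : B P x = c <;> by_cases hy : B P y = c <;>
      simp only [φ, hx, hy, dite_true, dite_false, Sum.inr.injEq, Sum.inl.injEq, Subtype.mk.injEq,
        reduceCtorEq] at hxy
    · exact Subtype.ext (sub_left_injective hxy)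
    · have hu := sub_left_injective hxy
      have a : B P x - c ≠ 0 := sub_ne_zero.2 hx
      have b : B P y - c ≠ 0 := sub_ne_zero.2 hy
      have key : ∀ z : {x : V // B x x = c}, B P z - c ≠ 0 →
          (B P z - c) * B ((B P z - c)⁻¹ • ((z : V) - P)) ((B P z - c)⁻¹ • ((z : V) - P)) = -2 :=
        fun z hz => by
          simp only [map_sub, map_smul, LinearMap.sub_apply, LinearMap.smul_apply, smul_eq_mul,
            hP, z.2, hs z P]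
          field_simp
          ring
      have k1 := key x a
      have k2 := key y b
      rw [hu] at k1
      have k3 : B ((B P y - c)⁻¹ • ((y : V) - P)) ((B P y - c)⁻¹ • ((y : V) - P)) ≠ 0 := by
        intro h0
        rw [h0, mul_zero] at k2
        exact h2 (neg_eq_zero.1 k2.symm)
      have k4 : B P x - c = B P y - c := mul_right_cancel₀ k3 (k1.trans k2.symm)
      rw [k4] at hu
      exact Subtype.ext (sub_left_injective (smul_right_injective V (inv_ne_zero b) hu))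
  have := Nat.card_le_card_of_injective φ hφ
  rw [Nat.card_sum, Module.natCard_eq_pow_finrank (K := F) (V := perp B P), hr] at this
  rw [hr, Nat.add_sub_cancel] at hl
  calc _ ≤ Nat.card F ^ (m + 1) + 2 * Nat.card F ^ m := this.trans (Nat.add_le_add_left hl _)
    _ = _ := by ring

end

/-- the bound for orthogonal frames -/
def bd (q : ℕ) : ℕ → ℕ
  | 0 => 1
  | 1 => 2
  | m + 2 => q ^ m * (q + 2) * bd q (m + 1)

lemma frames (h2 : (2 : F) ≠ 0) (m : ℕ) : ∀ (V : Type) [AddCommGroup V] [Module F V]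
    [FiniteDimensional F V] (B : LinearMap.BilinForm F V), (∀ x y, B x y = B y x) →
    (∀ x, (∀ y, B x y = 0) → x = 0) → finrank F V = m → ∀ d : Fin m → F, (∀ i, d i ≠ 0) →
    Nat.card {v : Fin m → V // (∀ i, B (v i) (v i) = d i) ∧ ∀ i j, i ≠ j → B (v i) (v j) = 0} ≤
      bd (Nat.card F) m := by
  induction m with
  | zero =>
    intro V _ _ _ B _ _ _ d _
    exact Finite.card_le_one_iff_subsingleton.2 inferInstance
  | succ m ih =>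
    intro V _ _ _ B hs hn hm d hd
    have : Finite V := Module.finite_of_finite F
    let φ : {v : Fin (m + 1) → V //
        (∀ i, B (v i) (v i) = d i) ∧ ∀ i j, i ≠ j → B (v i) (v j) = 0} →
        Σ x : {x : V // B x x = d 0}, {v : Fin m → perp B x //
          (∀ i, B.restrict (perp B x) (v i) (v i) = d i.succ) ∧
          ∀ i j, i ≠ j → B.restrict (perp B x) (v i) (v j) = 0} := fun v =>
      ⟨⟨v.1 0, v.2.1 0⟩, ⟨fun i => ⟨v.1 i.succ, v.2.2 0 _ (Fin.succ_ne_zero i).symm⟩,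
        fun i => v.2.1 _, fun i j h => v.2.2 _ _ fun h' => h (Fin.succ_injective _ h')⟩⟩
    have hφ : Function.Injective φ := fun v w h => Subtype.ext <| by
      have := congrArg (fun s => (Fin.cons s.1.1 fun i => (s.2.1 i).1 : Fin (m + 1) → V)) h
      exact (Fin.cons_self_tail v.1).symm.trans (this.trans (Fin.cons_self_tail w.1))
    refine (Nat.card_le_card_of_injective φ hφ).trans ?_
    have := Fintype.ofFinite {x : V // B x x = d 0}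
    rw [Nat.card_sigma]
    refine (Finset.sum_le_card_nsmul _ _ (bd (Nat.card F) m) fun x _ => ?_).trans ?_
    · have hx : B x x ≠ 0 := by rw [x.2]; exact hd 0
      exact ih (perp B x) (B.restrict (perp B x)) (fun _ _ => hs _ _) (perp_nondeg B hs hn hx)
        (by have := finrank_perp B hx; omega) _ fun i => hd _
    rw [Finset.card_univ, ← Nat.card_eq_fintype_card, smul_eq_mul]
    cases m with
    | zero =>
      obtain ⟨w, hw⟩ : ∃ w : V, w ≠ 0 := by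
        have := Module.nontrivial_of_finrank_eq_succ hm
        exact exists_ne 0
      obtain ⟨e, he⟩ := exists_aniso B h2 hs hn hw
      have := level_le B hs he (d 0)
      rw [hm] at this
      simpa [bd] using this
    | succ m => exact Nat.mul_le_mul_right _ (sphere_le B h2 hs hn hm (hd 0))

lemma bd_eq (q m : ℕ) : bd q (m + 1) * q ^ m = 2 * (q + 2) ^ m * q ^ ((m + 1) * m / 2) := by
  induction m with
  | zero => simp [bd]
  | succ m ih =>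
    have e : (m + 1 + 1) * (m + 1) / 2 = (m + 1) * m / 2 + (m + 1) := by
      rw [show (m + 1 + 1) * (m + 1) = (m + 1) * m + 2 * (m + 1) by ring,
        Nat.add_mul_div_left _ _ two_pos]
    rw [bd, e, pow_add q _ (m + 1)]
    calc q ^ m * (q + 2) * bd q (m + 1) * q ^ (m + 1)
        = (q + 2) * q ^ (m + 1) * (bd q (m + 1) * q ^ m) := by ring
      _ = _ := by rw [ih]; ring

lemma bd_le (m : ℕ) : ∃ q0 : ℕ, ∀ q, q0 ≤ q → bd q (m + 1) ≤ 3 * q ^ ((m + 1) * m / 2) := by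
  have h : Filter.Tendsto (fun q : ℕ => 2 * (1 + 2 / (q : ℝ)) ^ m) Filter.atTop
      (nhds (2 * (1 + 0) ^ m)) :=
    (((tendsto_const_div_atTop_nhds_zero_nat (2 : ℝ)).const_add 1).pow m).const_mul 2
  obtain ⟨q0, hq⟩ := Filter.eventually_atTop.1
    (h.eventually_le_const (show (2 * (1 + 0) ^ m : ℝ) < 3 by norm_num))
  refine ⟨max q0 1, fun q hq0 => ?_⟩
  have h1 : 0 < q := le_of_max_le_right hq0
  have h2 : (0 : ℝ) < q := by exact_mod_cast h1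
  have h3 : 2 * (q + 2) ^ m ≤ 3 * q ^ m := by
    have := mul_le_mul_of_nonneg_right (hq q (le_of_max_le_left hq0)) (pow_pos h2 m).le
    rw [mul_assoc, ← mul_pow, add_mul, div_mul_cancel₀ _ h2.ne', one_mul] at this
    exact_mod_cast this
  refine Nat.le_of_mul_le_mul_right ?_ (pow_pos h1 m)
  rw [bd_eq]
  calc _ ≤ 3 * q ^ m * q ^ ((m + 1) * m / 2) := Nat.mul_le_mul_right _ h3
    _ = _ := by ring

/-- the order of the orthogonal group -/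
theorem orth_le (h2 : (2 : F) ≠ 0) {V : Type} [AddCommGroup V] [Module F V]
    [FiniteDimensional F V] (B : LinearMap.BilinForm F V) (hs : ∀ x y, B x y = B y x)
    (hn : ∀ x, (∀ y, B x y = 0) → x = 0) :
    Nat.card {P : V →ₗ[F] V // ∀ x y, B (P x) (P y) = B x y} ≤ bd (Nat.card F) (finrank F V) := by
  have : Finite V := Module.finite_of_finite F
  have := invertibleOfNonzero h2
  obtain ⟨b, hb⟩ := LinearMap.BilinForm.exists_orthogonal_basis (B := B) ⟨fun x y => hs x y⟩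
  have hd : ∀ i, B (b i) (b i) ≠ 0 := fun i h => b.ne_zero i (hn _ fun y => by
    have : B (b i) = 0 := b.ext fun j => by
      by_cases hij : i = j
      · rw [← hij, h]; rfl
      · exact hb hij
    rw [this]; rfl)
  refine le_trans (Nat.card_le_card_of_injective (fun P => ⟨fun i => P.1 (b i),
    fun i => P.2 _ _, fun i j h => (P.2 _ _).trans (hb h)⟩) fun P Q h => ?_)
    (frames h2 _ V B hs hn rfl _ hd)
  exact Subtype.ext (b.ext fun i => congrFun (congrArg Subtype.val h) i)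

end Pool.Agent.MP_a43263_nt.U99

end MrgPart2

-- ======== part 3: formerly Pool.Agent.MP_a43263_nt.U99.Fc
section MrgPart3

/-! Self-adjoint operators over a finite field whose characteristic polynomial is a linear factor
times an irreducible factor, with an eigenvector of square length. -/

set_option autoImplicit false

open Module Polynomial Matrix

namespace Pool.Agent.MP_a43263_nt.U99

variable {F : Type} [Field F]

section

variable {V : Type} [AddCommGroup V] [Module F V] [FiniteDimensional F V]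
  (B : LinearMap.BilinForm F V)

omit [FiniteDimensional F V] in
lemma adj_aeval {T : Module.End F V} (hT : ∀ x y, B (T x) y = B x (T y)) (p : F[X]) (x y : V) :
    B (aeval T p x) y = B x (aeval T p y) := by
  induction p using Polynomial.induction_on' with
  | add p q hp hq => simp [hp, hq]
  | monomial n c =>
    have : ∀ x y, B ((T ^ n) x) y = B x ((T ^ n) y) := by
      induction n with
      | zero => simp
      | succ n ih =>
        intro x y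
        conv_lhs => rw [pow_succ']
        rw [pow_succ, Module.End.mul_apply, Module.End.mul_apply, hT, ih]
    simp [aeval_monomial, this]

lemma det_sq (hn : ∀ x, (∀ y, B x y = 0) → x = 0) (ψ M : V →ₗ[F] V)
    (h : ∀ x y, B (ψ x) (ψ y) = B (M x) y) : LinearMap.det ψ ^ 2 = LinearMap.det M := by
  classical
  let b := Module.finBasis F V
  have e : B.comp ψ ψ = B.compLeft M := by
    ext x y
    exact h x y
  have e2 := congrArg (fun C => (LinearMap.BilinForm.toMatrix b C).det) e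
  simp only [LinearMap.BilinForm.toMatrix_comp b b, LinearMap.BilinForm.toMatrix_compLeft,
    det_mul, det_transpose, LinearMap.det_toMatrix] at e2
  have hB : (LinearMap.BilinForm.toMatrix b B).det ≠ 0 := by
    intro h0
    obtain ⟨v, hv, hv0⟩ := Matrix.exists_vecMul_eq_zero_iff.2 h0
    refine hv (b.equivFun.symm.map_eq_zero_iff.1 (hn _ fun y => ?_))
    have : B (b.equivFun.symm v) = 0 := b.ext fun j => by
      have := congrFun hv0 j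
      simpa [vecMul, dotProduct, LinearMap.BilinForm.toMatrix_apply] using this
    rw [this]; rfl
  exact mul_right_cancel₀ hB (by linear_combination e2)

/-- normal form of one operator -/
lemma normal (hs : ∀ x y, B x y = B y x) (hn : ∀ x, (∀ y, B x y = 0) → x = 0) (a : F) (h : F[X])
    [hi : Fact (Irreducible h)] (h2 : 2 ≤ h.natDegree) (hd : finrank F V = h.natDegree + 1)
    (T : Module.End F V) (hT : ∀ x y, B (T x) y = B x (T y))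
    (hc : T.charpoly = (X - C a) * h) {x : V} {s : F} (hs0 : s ≠ 0) (hx : T x = a • x)
    (hxx : B x x = s ^ 2) :
    ∃ (Φ : (F × AdjoinRoot h) ≃ₗ[F] V) (l : AdjoinRoot h →ₗ[F] F), l ≠ 0 ∧
      (∀ u w, B (Φ u) (Φ w) = u.1 * w.1 + l (u.2 * w.2)) ∧
      ∀ u, T (Φ u) = Φ (a * u.1, AdjoinRoot.root h * u.2) := by
  have hm : h.Monic := (monic_X_sub_C a).of_mul_monic_left (hc ▸ T.charpoly_monic)
  have hCH : aeval T (h * (X - C a)) = 0 := by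
    rw [mul_comm, ← hc]; exact T.aeval_self_charpoly
  obtain ⟨w, hw⟩ : ∃ w, aeval T (X - C a) w ≠ 0 := by
    by_contra h0
    push Not at h0
    have h1 : T = algebraMap F _ a := by
      ext w
      have := h0 w
      simpa [sub_eq_zero] using this
    have h3 : T.charpoly = (X - C a) ^ finrank F V := by
      rw [h1, ← LinearMap.charpoly_toMatrix _ (Module.finBasis F V),
        LinearMap.toMatrix_algebraMap, scalar_apply, charpoly_diagonal]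
      simp
    rw [hc, hd, pow_succ'] at h3
    have h4 := mul_left_cancel₀ (X_sub_C_ne_zero a) h3
    have h5 : h.IsRoot a := by
      rw [h4]
      simp [show h.natDegree ≠ 0 by omega]
    have := degree_eq_one_of_irreducible_of_root hi.out h5
    have : h.natDegree = 1 := natDegree_eq_of_degree_eq_some (n := 1) this
    omega
  set e := aeval T (X - C a) w with he
  have he0 : aeval T h e = 0 := by
    rw [he, ← Module.End.mul_apply, ← map_mul, hCH]; rfl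
  let φ : AdjoinRoot h →ₗ[F] V :=
    ((LinearMap.applyₗ e).comp (aeval T).toLinearMap).comp (AdjoinRoot.modByMonicHom hm)
  have hφ : ∀ p, φ (AdjoinRoot.mk h p) = aeval T p e := fun p => by
    show aeval T (AdjoinRoot.modByMonicHom hm (AdjoinRoot.mk h p)) e = _
    rw [AdjoinRoot.modByMonicHom_mk]
    conv_rhs => rw [← modByMonic_add_div p h, mul_comm h]
    simp [he0]
  have hmul : ∀ (p : F[X]) k, φ (AdjoinRoot.mk h p * k) = aeval T p (φ k) := fun p k => by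
    obtain ⟨q, rfl⟩ := AdjoinRoot.mk_surjective k
    rw [← map_mul, hφ, hφ, map_mul, Module.End.mul_apply]
  have hinj : ∀ k, φ k = 0 → k = 0 := fun k hk => by
    by_contra hk0
    obtain ⟨q, hq⟩ := AdjoinRoot.mk_surjective k⁻¹
    have h1 := hmul q k
    rw [hq, inv_mul_cancel₀ hk0, hk, map_zero, ← map_one (AdjoinRoot.mk h), hφ] at h1
    exact hw (by simpa using h1)
  let v : V := s⁻¹ • x
  have hvv : B v v = 1 := by
    simp only [v, map_smul, LinearMap.smul_apply, smul_eq_mul, hxx]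
    field_simp
  have hTv : T v = a • v := by simp only [v, map_smul, hx, smul_comm a]
  have hvφ : ∀ k, B v (φ k) = 0 := fun k => by
    obtain ⟨q, rfl⟩ := AdjoinRoot.mk_surjective k
    rw [hφ, he, ← Module.End.mul_apply, ← map_mul, mul_comm q, map_mul, Module.End.mul_apply,
      ← adj_aeval B hT]
    simp [hTv]
  let l : AdjoinRoot h →ₗ[F] F := (B (φ 1)).comp φ
  have hl : ∀ k k', B (φ k) (φ k') = l (k * k') := fun k k' => by
    obtain ⟨q, rfl⟩ := AdjoinRoot.mk_surjective k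
    show _ = B (φ 1) (φ _)
    rw [hmul, ← adj_aeval B hT, ← hmul, mul_one]
  let Φ : (F × AdjoinRoot h) →ₗ[F] V := (LinearMap.toSpanSingleton F V v).coprod φ
  have hΦ : ∀ u, Φ u = u.1 • v + φ u.2 := fun u => rfl
  have hB : ∀ u w, B (Φ u) (Φ w) = u.1 * w.1 + l (u.2 * w.2) := fun u w => by
    simp only [hΦ, map_add, map_smul, LinearMap.add_apply, LinearMap.smul_apply, smul_eq_mul,
      hvv, hvφ, hs (φ _) v, hl]
    ring
  have hΦi : Function.Injective Φ := by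
    refine (injective_iff_map_eq_zero Φ).2 fun u hu => ?_
    have h1 : u.1 = 0 := by simpa [hu] using (hB u (1, 0)).symm
    rw [hΦ, h1, zero_smul, zero_add] at hu
    exact Prod.ext h1 (hinj _ hu)
  have := (AdjoinRoot.powerBasis hm.ne_zero).finite
  have hr : finrank F (F × AdjoinRoot h) = finrank F V := by
    rw [finrank_prod, finrank_self, (AdjoinRoot.powerBasis hm.ne_zero).finrank,
      AdjoinRoot.powerBasis_dim, hd, add_comm]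
  have hΦs := (LinearMap.injective_iff_surjective_of_finrank_eq_finrank hr).1 hΦi
  refine ⟨LinearEquiv.ofBijective Φ ⟨hΦi, hΦs⟩, l, fun h0 => ?_, hB, fun u => ?_⟩
  · have h1 : Φ (0, 1) = 0 := hn _ fun y => by
      obtain ⟨u, rfl⟩ := hΦs y
      simp [hB, h0]
    simpa using hΦi (h1.trans (map_zero Φ).symm)
  · show T (Φ u) = Φ _
    rw [hΦ, hΦ, ← AdjoinRoot.mk_X, hmul]
    simp [hTv, smul_smul, mul_comm]

end

lemma sq_of_norm [Finite F] {K : Type} [Field K] [Algebra F K] [Finite K] (h2 : (2 : F) ≠ 0)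
    {δ : K} (h0 : δ ≠ 0) {t : F} (h : t ^ 2 = Algebra.norm F δ) : ∃ ε : K, δ = ε * ε := by
  have := Fintype.ofFinite F
  have := Fintype.ofFinite K
  have hF : ringChar F ≠ 2 := fun h => h2 (by
    have := ringChar.Nat.cast_ringChar (R := F)
    rw [h] at this
    exact_mod_cast this)
  have hK : ringChar K ≠ 2 := by rwa [← Algebra.ringChar_eq F K]
  refine (FiniteField.isSquare_iff hK h0).2 ?_
  have ht : t ≠ 0 := by
    rintro rfl
    exact (Algebra.norm_ne_zero_iff (R := F)).2 h0 (h.symm.trans (by simp))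
  have h1 := FiniteField.algebraMap_norm_eq_pow (K := F) (x := δ)
  have o1 := FiniteField.odd_card_of_char_ne_two hF
  have o2 := FiniteField.odd_card_of_char_ne_two hK
  have hd : Fintype.card F - 1 ∣ Fintype.card K - 1 := by
    rw [Module.card_eq_pow_finrank (K := F) (V := K)]
    exact Nat.sub_one_dvd_pow_sub_one _ _
  obtain ⟨c, hc⟩ := hd
  have hq : 1 < Fintype.card F := Fintype.one_lt_card
  rw [Nat.card_eq_fintype_card, Nat.card_eq_fintype_card, hc,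
    Nat.mul_div_cancel_left _ (by omega), ← h] at h1
  have e1 : Fintype.card F - 1 = 2 * (Fintype.card F / 2) := by omega
  have e2 : Fintype.card K / 2 = c * (Fintype.card F / 2) := by
    have : Fintype.card K - 1 = 2 * (c * (Fintype.card F / 2)) := by rw [hc, e1]; ring
    omega
  rw [e2, pow_mul, ← h1, ← map_pow, ← pow_mul, ← e1, FiniteField.pow_card_sub_one_eq_one t ht,
    map_one]

lemma exists_mul {K : Type} [Field K] [Algebra F K] [FiniteDimensional F K] {l : K →ₗ[F] F}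
    (hl : l ≠ 0) (l' : K →ₗ[F] F) : ∃ δ : K, ∀ k, l' k = l (δ * k) := by
  let m : K →ₗ[F] Module.Dual F K := (LinearMap.mul F K).compr₂ l
  have hi : Function.Injective m := by
    refine (injective_iff_map_eq_zero m).2 fun δ hδ => ?_
    by_contra h0
    refine hl (LinearMap.ext fun k => ?_)
    have : l (δ * (δ⁻¹ * k)) = 0 := LinearMap.congr_fun hδ (δ⁻¹ * k)
    rwa [mul_inv_cancel_left₀ h0] at this
  obtain ⟨δ, hδ⟩ := (LinearMap.injective_iff_surjective_of_finrank_eq_finrank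
    Subspace.dual_finrank_eq.symm).1 hi l'
  exact ⟨δ, fun k => (LinearMap.congr_fun hδ k).symm⟩

theorem core [Finite F] (h2 : (2 : F) ≠ 0) {V : Type} [AddCommGroup V] [Module F V]
    [FiniteDimensional F V] (B : LinearMap.BilinForm F V) (hs : ∀ x y, B x y = B y x)
    (hn : ∀ x, (∀ y, B x y = 0) → x = 0) (a : F) (h : F[X]) (hi : Irreducible h)
    (hh : 2 ≤ h.natDegree) (hd : finrank F V = h.natDegree + 1) :
    4 * Nat.card {T : Module.End F V // (∀ x y, B (T x) y = B x (T y)) ∧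
        T.charpoly = (X - C a) * h ∧ ∃ x s, s ≠ 0 ∧ T x = a • x ∧ B x x = s ^ 2} ≤
      Nat.card {P : V →ₗ[F] V // ∀ x y, B (P x) (P y) = B x y} := by
  classical
  have : Fact (Irreducible h) := ⟨hi⟩
  have : Finite V := Module.finite_of_finite F
  have : Finite (V →ₗ[F] V) := Finite.of_injective _ DFunLike.coe_injective
  have := (AdjoinRoot.powerBasis hi.ne_zero).finite
  have : Finite (AdjoinRoot h) := Module.finite_of_finite F
  set S := {T : Module.End F V // (∀ x y, B (T x) y = B x (T y)) ∧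
        T.charpoly = (X - C a) * h ∧ ∃ x s, s ≠ 0 ∧ T x = a • x ∧ B x x = s ^ 2}
  rcases isEmpty_or_nonempty S with hS | ⟨⟨T0, t1, t2, x0, s0, t3, t4, t5⟩⟩
  · simp
  obtain ⟨Φ0, l0, l1, l2, -⟩ := normal B hs hn a h hh hd T0 t1 t2 t3 t4 t5
  have key : ∀ T : S, ∃ Φ : (F × AdjoinRoot h) ≃ₗ[F] V,
      (∀ u w, B (Φ u) (Φ w) = u.1 * w.1 + l0 (u.2 * w.2)) ∧
      ∀ u, T.1 (Φ u) = Φ (a * u.1, AdjoinRoot.root h * u.2) := by
    rintro ⟨T, u1, u2, x, s, u3, u4, u5⟩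
    obtain ⟨Φ, l, m1, m2, m3⟩ := normal B hs hn a h hh hd T u1 u2 u3 u4 u5
    obtain ⟨δ, hδ⟩ := exists_mul l1 l
    have hδ0 : δ ≠ 0 := by
      rintro rfl
      exact m1 (LinearMap.ext fun k => by simp [hδ])
    have hdet := det_sq (B.comp Φ0.toLinearMap Φ0.toLinearMap) (fun u hu => Φ0.map_eq_zero_iff.1
        (hn _ fun y => by simpa using hu (Φ0.symm y)))
      (Φ0.symm.toLinearMap.comp Φ.toLinearMap)
      (LinearMap.id.prodMap (LinearMap.mulLeft F δ)) fun u w => by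
        have e1 := m2 u w
        have e2 := l2 (u.1, δ * u.2) w
        simp only [hδ, ← mul_assoc] at e1
        simpa [e1] using e2.symm
    rw [LinearMap.det_prodMap, LinearMap.det_id, one_mul] at hdet
    obtain ⟨ε, hε⟩ := sq_of_norm h2 hδ0 (hdet.trans (Algebra.norm_apply F δ).symm)
    have hε0 : ε ≠ 0 := fun h0 => hδ0 (by rw [hε, h0, mul_zero])
    let σ : AdjoinRoot h ≃ₗ[F] AdjoinRoot h := LinearEquiv.ofBijective (LinearMap.mulLeft F ε⁻¹)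
      (mulLeft_bijective₀ _ (inv_ne_zero hε0))
    refine ⟨((LinearEquiv.refl F F).prodCongr σ).trans Φ, fun u w => ?_, fun u => ?_⟩
    · refine (m2 (u.1, ε⁻¹ * u.2) (w.1, ε⁻¹ * w.2)).trans ?_
      rw [hδ, hε]
      congr 2
      field_simp
    · refine (m3 (u.1, ε⁻¹ * u.2)).trans (congrArg Φ (Prod.ext rfl ?_))
      exact mul_left_comm _ _ _
  choose Φ k1 k2 using key
  let sg : Bool → F := fun b => if b then 1 else -1
  have sg2 : ∀ b, sg b * sg b = 1 := fun b => by cases b <;> simp [sg]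
  have sgi : Function.Injective sg := by
    have : (1 : F) ≠ -1 := fun h => h2 (by linear_combination h)
    intro b c
    cases b <;> cases c <;> simp [sg, this, this.symm]
  let σ : Bool × Bool → (F × AdjoinRoot h) →ₗ[F] (F × AdjoinRoot h) := fun b =>
    (sg b.1 • LinearMap.id).prodMap (sg b.2 • LinearMap.id)
  have hσ : ∀ b u, σ b u = (sg b.1 * u.1, sg b.2 • u.2) := fun b u => rfl
  have hσσ : ∀ b u, σ b (σ b u) = u := fun b u => by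
    simp only [hσ, ← mul_assoc, smul_smul, sg2, one_mul, one_smul]
  let Ψ : (Bool × Bool) × S → {P : V →ₗ[F] V // ∀ x y, B (P x) (P y) = B x y} := fun z =>
    ⟨(Φ z.2).toLinearMap.comp ((σ z.1).comp Φ0.symm.toLinearMap), fun x y => by
      obtain ⟨u, rfl⟩ := Φ0.surjective x
      obtain ⟨w, rfl⟩ := Φ0.surjective y
      simp only [LinearMap.comp_apply, LinearEquiv.coe_coe, LinearEquiv.symm_apply_apply, k1, l2,
        hσ, smul_mul_smul_comm, sg2, one_smul, mul_mul_mul_comm (sg z.1.1) u.1, one_mul]⟩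
  have hΨ : Function.Injective Ψ := by
    rintro ⟨b, T⟩ ⟨b', T'⟩ hh
    have e : ∀ u, Φ T (σ b u) = Φ T' (σ b' u) := fun u => by
      simpa [Ψ] using LinearMap.congr_fun (congrArg Subtype.val hh) (Φ0 u)
    have e2 : ∀ (T : S) b u, T.1 (Φ T (σ b u)) =
        Φ T (σ b (a * u.1, AdjoinRoot.root h * u.2)) := fun T b u => by
      rw [k2, hσ, hσ, mul_left_comm, mul_smul_comm]
    have hT : T = T' := Subtype.ext (LinearMap.ext fun x => by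
      obtain ⟨u, rfl⟩ := (Φ T).surjective x
      rw [← hσσ b u, e2, e, e, e2])
    subst hT
    have e3 : ∀ u, σ b u = σ b' u := fun u => (Φ T).injective (e u)
    have e4 : sg b.1 = sg b'.1 := by simpa [hσ] using congrArg Prod.fst (e3 (1, 0))
    have e5 : sg b.2 = sg b'.2 :=
      smul_left_injective F (one_ne_zero (α := AdjoinRoot h)) (congrArg Prod.snd (e3 (0, 1)))
    exact Prod.ext (Prod.ext (sgi e4) (sgi e5)) rfl
  simpa [Nat.card_prod] using Nat.card_le_card_of_injective Ψ hΨ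

theorem fieldCount (g : ℕ) (hg : 1 ≤ g) : ∃ q0 : ℕ, ∀ (F : Type) [Field F] [Fintype F]
    [DecidableEq F], q0 ≤ Fintype.card F → (2 : F) ≠ 0 →
    ∀ A : Matrix (Fin (2 * g + 1)) (Fin (2 * g + 1)) F, A.IsSymm → A.det ≠ 0 →
    ∀ (a : F) (h : F[X]), Irreducible h → h.natDegree = 2 * g →
      4 * Nat.card {T : Matrix (Fin (2 * g + 1)) (Fin (2 * g + 1)) F // (A * T).IsSymm ∧
        T.charpoly = (X - C a) * h ∧
        ∃ (x : Fin (2 * g + 1) → F) (s : F), s ≠ 0 ∧ T *ᵥ x = a • x ∧ x ⬝ᵥ A *ᵥ x = s ^ 2} ≤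
      3 * Fintype.card F ^ (g * (2 * g + 1)) := by
  obtain ⟨q0, hq⟩ := bd_le (2 * g)
  refine ⟨q0, fun F _ _ _ h0 h2 A hA hdet a h hi hd => ?_⟩
  have sym : ∀ (M : Matrix (Fin (2 * g + 1)) (Fin (2 * g + 1)) F), M.IsSymm → ∀ x y,
      x ⬝ᵥ M *ᵥ y = y ⬝ᵥ M *ᵥ x := fun M hM x y => by
    rw [dotProduct_mulVec, ← mulVec_transpose, hM.eq, dotProduct_comm]
  have hs : ∀ x y, toBilin' A x y = toBilin' A y x := fun x y => by
    rw [toBilin'_apply', toBilin'_apply', sym A hA]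
  have hn : ∀ x, (∀ y, toBilin' A x y = 0) → x = 0 := fun x hx => by
    refine eq_zero_of_mulVec_eq_zero hdet (dotProduct_eq_zero _ fun y => ?_)
    rw [dotProduct_comm, ← toBilin'_apply', hs, hx]
  have h1 := core h2 (toBilin' A) hs hn a h hi (by omega) (by simp [hd])
  have h3 := orth_le h2 (toBilin' A) hs hn
  have h4 := hq _ h0
  rw [show (2 * g + 1) * (2 * g) / 2 = g * (2 * g + 1) by
    rw [show (2 * g + 1) * (2 * g) = 2 * (g * (2 * g + 1)) by ring,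
      Nat.mul_div_cancel_left _ two_pos]] at h4
  rw [finrank_fin_fun, Nat.card_eq_fintype_card (α := F)] at h3
  refine le_trans (Nat.mul_le_mul_left _ ?_) (h1.trans (h3.trans h4))
  have : Finite (Module.End F (Fin (2 * g + 1) → F)) :=
    Finite.of_injective _ DFunLike.coe_injective
  refine Nat.card_le_card_of_injective (fun T => ⟨toLin' T.1, fun x y => ?_,
    (charpoly_toLin' _).trans T.2.2.1, ?_⟩) fun T T' hh => ?_
  · rw [hs, toBilin'_apply', toBilin'_apply', toLin'_apply, toLin'_apply, mulVec_mulVec,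
      mulVec_mulVec, sym _ T.2.1]
  · obtain ⟨x, s, k1, k2, k3⟩ := T.2.2.2
    exact ⟨x, s, k1, k2, (toBilin'_apply' _ _ _).trans k3⟩
  · exact Subtype.ext (toLin'.injective (congrArg Subtype.val hh))

end Pool.Agent.MP_a43263_nt.U99

end MrgPart3

-- marker of a merged file
example : 731051 + 28339 = 731051 + 28339 := rfl
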